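import Mathlib

set_option autoImplicit false

/-!
A chain decomposition of the poset of all partial choices: if `∑ 1 / N j ≤ 1` then every choice
function `c ∈ ∏ Fin (N j)` can be given a ranking of the coordinates such that every partial choice
on a set `S` has an extension `c` for which all coordinates outside of `S` rank lower than those
in `S`.
-/

namespace Pool.Agent.R753

open Finset

variable {ι : Type} [Fintype ι] [DecidableEq ι]

/-- the number of coordinates where no choice has been made -/
def nn {N : ι → ℕ} (p : ∀ j, Option (Fin (N j))) : ℕ := (univ.filter fun j => p j = none).card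

omit [DecidableEq ι] in
lemma nn_pos {N : ι → ℕ} {p : ∀ j, Option (Fin (N j))} : 0 < nn p ↔ ∃ j, p j = none := by
  unfold nn
  rw [Finset.card_pos]
  constructor
  · rintro ⟨j, hj⟩
    exact ⟨j, (mem_filter.1 hj).2⟩
  · rintro ⟨j, hj⟩
    exact ⟨j, mem_filter.2 ⟨mem_univ j, hj⟩⟩

/-- Hall's theorem for one step up. -/
lemma exists_up (N : ι → ℕ) (hN : ∀ j, 0 < N j) (hsum : ∑ j, (1 : ℝ) / N j ≤ 1) :
    ∃ up : (∀ j, Option (Fin (N j))) → (∀ j, Option (Fin (N j))),
      (∀ p p', 0 < nn p → 0 < nn p' → up p = up p' → p = p') ∧
      ∀ p, 0 < nn p → ∃ j v, p j = none ∧ up p = Function.update p j (some v) := by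
  classical
  set t : {p : ∀ j, Option (Fin (N j)) // 0 < nn p} → Finset (∀ j, Option (Fin (N j))) :=
    fun p => univ.filter fun r => ∃ j v, p.1 j = none ∧ r = Function.update p.1 j (some v) with ht
  have hall : ∀ A : Finset {p : ∀ j, Option (Fin (N j)) // 0 < nn p},
      A.card ≤ (A.biUnion t).card := by
    intro A
    set w : (∀ j, Option (Fin (N j))) → (∀ j, Option (Fin (N j))) → ℝ := fun p r =>
      ∑ j, if p = Function.update r j none ∧ p ≠ r then (1 : ℝ) / N j else 0 with hw
    have hterm0 : ∀ (p r : ∀ j, Option (Fin (N j))) (j : ι), 0 ≤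
        (if p = Function.update r j none ∧ p ≠ r then (1 : ℝ) / N j else 0) := by
      intro p r j
      split_ifs <;> positivity
    have hw0 : ∀ p r, 0 ≤ w p r := fun p r => Finset.sum_nonneg fun j _ => hterm0 p r j
    have h1 : ∀ p ∈ A, (1 : ℝ) ≤ ∑ r ∈ A.biUnion t, w p.1 r := by
      intro p hp
      obtain ⟨j, hj⟩ := nn_pos.1 p.2
      have hinj : Function.Injective (fun v : Fin (N j) => Function.update p.1 j (some v)) := by
        intro v v' h
        have := congrFun h j
        simpa using this
      have hsub : (univ.image fun v : Fin (N j) => Function.update p.1 j (some v)) ⊆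
          A.biUnion t := by
        intro r hr
        obtain ⟨v, -, rfl⟩ := Finset.mem_image.1 hr
        exact Finset.mem_biUnion.2 ⟨p, hp, mem_filter.2 ⟨mem_univ _, j, v, hj, rfl⟩⟩
      calc (1 : ℝ) = ∑ v : Fin (N j), (1 : ℝ) / N j := by
            rw [Finset.sum_const, Finset.card_univ, Fintype.card_fin, nsmul_eq_mul]
            have : (N j : ℝ) ≠ 0 := by exact_mod_cast (hN j).ne'
            field_simp
        _ ≤ ∑ v : Fin (N j), w p.1 (Function.update p.1 j (some v)) := by
            refine Finset.sum_le_sum fun v _ => ?_
            have h := Finset.single_le_sum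
              (f := fun i => if p.1 = Function.update (Function.update p.1 j (some v)) i none ∧
                p.1 ≠ Function.update p.1 j (some v) then (1 : ℝ) / N i else 0)
              (fun i _ => hterm0 _ _ i) (Finset.mem_univ j)
            refine le_trans (le_of_eq ?_) h
            have e1 : p.1 = Function.update (Function.update p.1 j (some v)) j none := by
              rw [Function.update_idem]
              funext i
              by_cases hi : i = j
              · subst hi
                simp [hj]
              · simp [Function.update_of_ne hi]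
            have e2 : p.1 ≠ Function.update p.1 j (some v) := by
              intro h
              have := congrFun h j
              rw [hj, Function.update_self] at this
              exact absurd this (by simp)
            show (1 : ℝ) / N j = if p.1 = Function.update (Function.update p.1 j (some v)) j none ∧
                p.1 ≠ Function.update p.1 j (some v) then (1 : ℝ) / N j else 0
            rw [if_pos ⟨e1, e2⟩]
        _ = ∑ r ∈ univ.image fun v : Fin (N j) => Function.update p.1 j (some v), w p.1 r := by
            rw [Finset.sum_image fun v _ v' _ h => hinj h]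
        _ ≤ ∑ r ∈ A.biUnion t, w p.1 r :=
            Finset.sum_le_sum_of_subset_of_nonneg hsub fun r _ _ => hw0 _ _
    have h2 : ∀ r, ∑ p ∈ A, w p.1 r ≤ 1 := by
      intro r
      calc ∑ p ∈ A, w p.1 r = ∑ j, ∑ p ∈ A,
            (if p.1 = Function.update r j none ∧ p.1 ≠ r then (1 : ℝ) / N j else 0) :=
            Finset.sum_comm
        _ ≤ ∑ j, (1 : ℝ) / N j := by
            refine Finset.sum_le_sum fun j _ => ?_
            have hN0 : (0 : ℝ) ≤ 1 / N j := by positivity
            by_cases hex : ∃ p ∈ A, p.1 = Function.update r j none ∧ p.1 ≠ r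
            · obtain ⟨p₀, hp₀, hp₀'⟩ := hex
              rw [Finset.sum_eq_single_of_mem p₀ hp₀]
              · rw [if_pos hp₀']
              · intro p _ hne
                rw [if_neg]
                rintro ⟨h, -⟩
                exact hne (Subtype.ext (h.trans hp₀'.1.symm))
            · rw [Finset.sum_eq_zero]
              · exact hN0
              · intro p hp
                rw [if_neg]
                exact fun h => hex ⟨p, hp, h⟩
        _ ≤ 1 := hsum
    have h3 : (A.card : ℝ) ≤ (A.biUnion t).card := by
      calc (A.card : ℝ) = ∑ p ∈ A, (1 : ℝ) := by simp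
        _ ≤ ∑ p ∈ A, ∑ r ∈ A.biUnion t, w p.1 r := Finset.sum_le_sum h1
        _ = ∑ r ∈ A.biUnion t, ∑ p ∈ A, w p.1 r := Finset.sum_comm
        _ ≤ ∑ r ∈ A.biUnion t, (1 : ℝ) := Finset.sum_le_sum fun r _ => h2 r
        _ = (A.biUnion t).card := by simp
    exact_mod_cast h3
  obtain ⟨f, hf1, hf2⟩ := (Finset.all_card_le_biUnion_card_iff_exists_injective t).1 hall
  refine ⟨fun p => if h : 0 < nn p then f ⟨p, h⟩ else p, ?_, ?_⟩
  · intro p p' hp hp' h
    simp only [dif_pos hp, dif_pos hp'] at h
    exact congrArg Subtype.val (hf1 h)
  · intro p hp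
    simp only [dif_pos hp]
    have := hf2 ⟨p, hp⟩
    rw [ht, mem_filter] at this
    exact this.2

/-- **Ranking.** -/
lemma exists_rank (N : ι → ℕ) (hN : ∀ j, 0 < N j) (hsum : ∑ j, (1 : ℝ) / N j ≤ 1) :
    ∃ b : (∀ j, Fin (N j)) → ι → ℕ, (∀ c j, b c j ≤ Fintype.card ι + 1) ∧
      ∀ (S : Finset ι) (c₀ : ∀ j, Fin (N j)), ∃ c : ∀ j, Fin (N j),
        (∀ i ∈ S, c i = c₀ i) ∧ ∀ i ∈ S, ∀ j, j ∉ S → b c j < b c i := by
  classical
  obtain ⟨up, hinj, hup⟩ := exists_up N hN hsum
  have hnn : ∀ p, 0 < nn p → nn (up p) + 1 = nn p := by
    intro p hp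
    obtain ⟨j, v, hj, he⟩ := hup p hp
    rw [he]
    unfold nn
    have e : (univ.filter fun i => p i = none) =
        insert j (univ.filter fun i => Function.update p j (some v) i = none) := by
      ext i
      simp only [mem_filter, mem_univ, true_and, mem_insert]
      by_cases hi : i = j
      · subst hi
        simp [hj]
      · simp [hi]
    rw [e, card_insert_of_notMem]
    simp
  have hle : ∀ p : ∀ j, Option (Fin (N j)), nn p ≤ Fintype.card ι := by
    intro p
    unfold nn
    exact (Finset.card_filter_le _ _).trans (le_of_eq Finset.card_univ)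
  have hmono : ∀ n p i, n ≤ nn p → p i ≠ none → up^[n] p i = p i := by
    intro n
    induction n with
    | zero => intro p i _ _; rfl
    | succ n ih =>
      intro p i hn hi
      have hp : 0 < nn p := by omega
      have h1 := hnn p hp
      obtain ⟨j, v, hj, he⟩ := hup p hp
      have h2 : up p i = p i := by
        rw [he, Function.update_of_ne]
        rintro rfl
        exact hi hj
      rw [Function.iterate_succ_apply, ih (up p) i (by omega) (by rwa [h2]), h2]
  have hnniter : ∀ n p, n ≤ nn p → nn (up^[n] p) + n = nn p := by
    intro n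
    induction n with
    | zero => intro p _; rfl
    | succ n ih =>
      intro p hn
      have hp : 0 < nn p := by omega
      have h1 := hnn p hp
      have h2 := ih (up p) (by omega)
      rw [Function.iterate_succ_apply]
      omega
  have huniq : ∀ n p p', n ≤ nn p → n ≤ nn p' → up^[n] p = up^[n] p' → p = p' := by
    intro n
    induction n with
    | zero => intro p p' _ _ h; exact h
    | succ n ih =>
      intro p p' hn hn' h
      have hp : 0 < nn p := by omega
      have hp' : 0 < nn p' := by omega
      have h1 := hnn p hp
      have h1' := hnn p' hp'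
      rw [Function.iterate_succ_apply, Function.iterate_succ_apply] at h
      exact hinj p p' hp hp' (ih _ _ (by omega) (by omega) h)
  set b : (∀ j, Fin (N j)) → ι → ℕ := fun c j => sInf {n | n = Fintype.card ι + 1 ∨
    ∃ p, nn p = n ∧ up^[n] p = (fun i => some (c i)) ∧ p j = none} with hb
  refine ⟨b, fun c j => Nat.sInf_le (Or.inl rfl), ?_⟩
  intro S c₀
  set p : ∀ j, Option (Fin (N j)) := fun i => if i ∈ S then some (c₀ i) else none with hp
  set m : ℕ := nn p with hm
  have hfull : nn (up^[m] p) = 0 := by
    have := hnniter m p le_rfl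
    omega
  have hfull' : ∀ i, ∃ v, up^[m] p i = some v := by
    intro i
    rw [← Option.ne_none_iff_exists']
    intro h
    have : 0 < nn (up^[m] p) := nn_pos.2 ⟨i, h⟩
    omega
  choose c hc using hfull'
  have hc' : up^[m] p = fun i => some (c i) := funext hc
  refine ⟨c, ?_, ?_⟩
  · intro i hi
    have h1 : p i = some (c₀ i) := by simp only [hp, if_pos hi]
    have h2 := hmono m p i le_rfl (by rw [h1]; simp)
    rw [hc, h1] at h2
    exact Option.some.inj h2
  · intro i hi j hj
    have h1 : b c j ≤ m := Nat.sInf_le (Or.inr ⟨p, rfl, hc', by simp only [hp, if_neg hj]⟩)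
    have hne : Set.Nonempty {n | n = Fintype.card ι + 1 ∨
        ∃ p, nn p = n ∧ up^[n] p = (fun i => some (c i)) ∧ p i = none} := ⟨_, Or.inl rfl⟩
    have h2 : b c i = Fintype.card ι + 1 ∨
        ∃ p, nn p = b c i ∧ up^[b c i] p = (fun i => some (c i)) ∧ p i = none := Nat.sInf_mem hne
    refine lt_of_le_of_lt h1 ?_
    rcases h2 with h2 | ⟨p', hp1, hp2, hp3⟩
    · rw [h2]
      have := hle p
      omega
    · by_contra hcon
      push Not at hcon
      set n : ℕ := b c i with hn
      have h3 : up^[n] (up^[m - n] p) = up^[n] p' := by
        rw [← Function.iterate_add_apply, hp2, ← hc']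
        congr 2
        omega
      have h4 := hnniter (m - n) p (by omega)
      have h5 := huniq n _ _ (by omega) hp1.ge h3
      have h6 := hmono (m - n) p i (by omega) (by simp only [hp, if_pos hi]; simp)
      rw [h5, hp3] at h6
      simp only [hp, if_pos hi] at h6
      exact absurd h6 (by simp)

end Pool.Agent.R753
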