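import Mathlib
import Pool.Agent.H665R3.LamStep
import Pool.Agent.R753.Chains

set_option autoImplicit false

/-!
Unconditional sums of convex bodies: reduction of the covering problem to a statement about the
profile set `M`, and the case `∑ 1 / N j ≤ 1`.
-/

namespace Pool.Agent.R753

open Filter Topology

variable {ι : Type} [Fintype ι]

/-- `M` is solid: if `x ∈ M` and `y i` lies between `0` and `x i` for all `i`, then `y ∈ M`. -/
def Sol (M : Set (ι → ℝ)) : Prop :=
  ∀ x ∈ M, ∀ y : ι → ℝ, (∀ i, y i ∈ Set.uIcc 0 (x i)) → y ∈ M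

lemma interior_of_lt {M : Set (ι → ℝ)} (hMc : Convex ℝ M)
    (hM0 : (0 : ι → ℝ) ∈ interior M) (hM : Sol M) {p Y : ι → ℝ} (hp : p ∈ M)
    (hY0 : ∀ i, 0 ≤ Y i) (hYp : ∀ i, Y i < p i) : Y ∈ interior M := by
  classical
  obtain ⟨s, hs0, hs1, hs⟩ : ∃ s : ℝ, 0 < s ∧ s < 1 ∧ ∀ i, Y i ≤ s * p i := by
    have key : ∀ i, ∀ᶠ s : ℝ in 𝓝[<] 1, Y i ≤ s * p i := by
      intro i
      have h1 : Tendsto (fun s : ℝ => s * p i) (𝓝[<] 1) (𝓝 (1 * p i)) := by
        have : Tendsto (fun s : ℝ => s * p i) (𝓝 1) (𝓝 (1 * p i)) :=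
          (continuous_id.mul continuous_const).tendsto 1
        exact this.mono_left nhdsWithin_le_nhds
      rw [one_mul] at h1
      exact (h1.eventually (lt_mem_nhds (hYp i))).mono fun s hs => hs.le
    have key2 : ∀ᶠ s : ℝ in 𝓝[<] 1, ∀ i, Y i ≤ s * p i := Filter.eventually_all.2 key
    obtain ⟨s, hs, hs2⟩ := (key2.and (Ioo_mem_nhdsLT (show (0 : ℝ) < 1 by norm_num))).exists
    exact ⟨s, hs2.1, hs2.2, hs⟩
  have h1 : (s⁻¹ • Y) ∈ M := by
    refine hM p hp _ ?_
    intro i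
    rw [Pi.smul_apply, smul_eq_mul, Set.mem_uIcc]
    left
    refine ⟨mul_nonneg (inv_nonneg.2 hs0.le) (hY0 i), ?_⟩
    rw [inv_mul_le_iff₀ hs0]
    exact hs i
  have h2 : (1 - s) • (0 : ι → ℝ) + s • (s⁻¹ • Y) ∈ interior M :=
    hMc.combo_interior_self_mem_interior hM0 h1 (by linarith) hs0.le (by ring)
  rw [smul_zero, zero_add, smul_smul, mul_inv_cancel₀ hs0.ne', one_smul] at h2
  exact h2

/-- If we gain on `S` at least `κ * A`, and lose at most `D * (δ * A)` outside of `S`, where the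
profile is small, then we get into the interior. -/
lemma gain {M : Set (ι → ℝ)} (hMc : Convex ℝ M) (hM0 : (0 : ι → ℝ) ∈ interior M) (hsol : Sol M)
    {η R κ D δ A : ℝ} (hη0 : 0 < η) (hR0 : 0 < R) (hκ0 : 0 < κ) (hD0 : 0 < D) (hA0 : 0 < A)
    (hz : (fun _ => 3 * η : ι → ℝ) ∈ M) (hδ : δ * (2 * (R * D)) ≤ η * κ)
    (hA : κ * A ≤ 2 * R) {X Y : ι → ℝ} (hX : X ∈ M) (hXR : ∀ i, X i ≤ R)
    (hY0 : ∀ i, 0 ≤ Y i) (S : Set ι) (hXS : ∀ i, i ∉ S → X i ≤ η)
    (hS : ∀ i ∈ S, Y i ≤ X i - κ * A) (hZ : ∀ i, i ∉ S → Y i ≤ X i + D * (δ * A)) :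
    Y ∈ interior M := by
  classical
  set l : ℝ := κ * A / (2 * R) with hl
  have hl0 : 0 < l := by positivity
  have hlR : l * R = κ * A / 2 := by
    rw [hl]
    field_simp
  have hl1 : l ≤ 1 := by
    rw [hl, div_le_one (by positivity)]
    exact hA
  set p : ι → ℝ := (1 - l) • X + l • (fun _ => 3 * η : ι → ℝ) with hp
  have hpM : p ∈ M := hMc hX hz (by linarith) hl0.le (by ring)
  have hpi : ∀ i, p i = (1 - l) * X i + l * (3 * η) := by
    intro i
    simp only [hp, Pi.add_apply, Pi.smul_apply, smul_eq_mul]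
  refine interior_of_lt hMc hM0 hsol hpM hY0 fun i => ?_
  rw [hpi]
  by_cases hi : i ∈ S
  · have h1 := hS i hi
    have h4 : l * X i ≤ l * R := mul_le_mul_of_nonneg_left (hXR i) hl0.le
    have h5 : 0 < l * (3 * η) := by positivity
    have h6 : 0 < κ * A := by positivity
    have h7 : (1 - l) * X i = X i - l * X i := by ring
    rw [h7]
    linarith
  · have h2 := hZ i hi
    have h4 : D * (δ * A) ≤ l * η := by
      rw [hl]
      have : κ * A / (2 * R) * η = (η * κ) * (A / (2 * R)) := by ring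
      rw [this]
      have h5 : δ * (2 * (R * D)) * (A / (2 * R)) ≤ η * κ * (A / (2 * R)) :=
        mul_le_mul_of_nonneg_right hδ (by positivity)
      have h6 : δ * (2 * (R * D)) * (A / (2 * R)) = D * (δ * A) := by
        field_simp
      linarith
    have h5 : l * X i ≤ l * η := mul_le_mul_of_nonneg_left (hXS i hi) hl0.le
    have h6 : 0 < l * η := by positivity
    have h7 : (1 - l) * X i + l * (3 * η) = X i - l * X i + 3 * (l * η) := by ring
    rw [h7]
    linarith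

/-- The elementary part: `K` is a convex body. -/
lemma body {E : ι → Type} [∀ j, NormedAddCommGroup (E j)]
    [∀ j, NormedSpace ℝ (E j)] [∀ j, FiniteDimensional ℝ (E j)]
    (C : ∀ j, Set (E j)) (hCc : ∀ j, Convex ℝ (C j)) (hC0 : ∀ j, (0 : E j) ∈ interior (C j))
    (M : Set (ι → ℝ)) (hMc : Convex ℝ M) (hMcl : IsClosed M)
    (hM0 : (0 : ι → ℝ) ∈ interior M) (hsol : Sol M)
    (K : Set (∀ j, E j)) (hKdef : K = {x | (fun j => gauge (C j) (x j)) ∈ M})
    (hKb : Bornology.IsBounded K) :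
    Convex ℝ K ∧ IsCompact K ∧ (0 : ∀ j, E j) ∈ interior K ∧
      (∀ y : ∀ j, E j, (fun j => gauge (C j) (y j)) ∈ interior M → y ∈ interior K) := by
  classical
  have hnh : ∀ j, C j ∈ 𝓝 (0 : E j) := fun j => mem_interior_iff_mem_nhds.1 (hC0 j)
  have hGc : Continuous (fun (x : ∀ j, E j) (j : ι) => gauge (C j) (x j)) := by
    refine continuous_pi fun j => ?_
    exact (continuous_gauge (hCc j) (hnh j)).comp (continuous_apply j)
  have hconv : Convex ℝ K := by
    intro x hx y hy a b ha hb hab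
    rw [hKdef] at hx hy ⊢
    have hW := hMc hx hy ha hb hab
    refine hsol _ hW _ ?_
    intro i
    rw [Set.mem_uIcc]
    left
    refine ⟨gauge_nonneg _, ?_⟩
    simp only [Pi.add_apply, Pi.smul_apply, smul_eq_mul]
    refine (gauge_add_le (hCc i) (absorbent_nhds_zero (hnh i)) _ _).trans ?_
    rw [gauge_smul_of_nonneg ha, gauge_smul_of_nonneg hb, smul_eq_mul, smul_eq_mul]
  have hclosed : IsClosed K := by
    rw [hKdef]
    exact hMcl.preimage hGc
  have hcomp : IsCompact K := by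
    have : FiniteDimensional ℝ (∀ j, E j) := inferInstance
    have : ProperSpace (∀ j, E j) := FiniteDimensional.proper ℝ _
    exact Metric.isCompact_of_isClosed_isBounded hclosed hKb
  have hint : ∀ y : ∀ j, E j, (fun j => gauge (C j) (y j)) ∈ interior M → y ∈ interior K := by
    intro y hy
    have hopen : IsOpen ((fun (x : ∀ j, E j) (j : ι) => gauge (C j) (x j)) ⁻¹' (interior M)) :=
      IsOpen.preimage hGc isOpen_interior
    refine mem_interior.2 ⟨_, ?_, hopen, hy⟩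
    intro z hz
    rw [hKdef]
    have h : (fun j => gauge (C j) (z j)) ∈ interior M := hz
    have h2 : (fun j => gauge (C j) (z j)) ∈ M := interior_subset h
    exact h2
  refine ⟨hconv, hcomp, hint 0 ?_, hint⟩
  have : (fun j => gauge (C j) ((0 : ∀ j, E j) j)) = (0 : ι → ℝ) := by
    funext j
    simp
  rw [this]
  exact hM0

/-- Reduction to the profile set. -/
theorem reduce {E : ι → Type} [∀ j, NormedAddCommGroup (E j)]
    [∀ j, NormedSpace ℝ (E j)] [∀ j, FiniteDimensional ℝ (E j)]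
    (C : ∀ j, Set (E j)) (hCc : ∀ j, Convex ℝ (C j))
    (hCk : ∀ j, IsCompact (C j)) (hC0 : ∀ j, (0 : E j) ∈ interior (C j))
    (N : ι → ℕ)
    (hcov : ∀ j, ∃ T : Finset (E j), T.card ≤ N j ∧
      C j ⊆ ⋃ t ∈ T, (fun x => t + x) '' interior (C j)) :
    ∃ κ D : ℝ, 0 < κ ∧ κ ≤ 1 ∧ 1 ≤ D ∧ ∀ (M : Set (ι → ℝ)), Convex ℝ M → IsClosed M →
      (0 : ι → ℝ) ∈ interior M → Sol M → ∀ K : Set (∀ j, E j),
      K = {x | (fun j => gauge (C j) (x j)) ∈ M} → Bornology.IsBounded K →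
      ∀ a : (∀ j, Fin (N j)) → ι → ℝ, (∀ c j, 0 ≤ a c j) →
      (∀ x ∈ K, ∀ c₀ : ∀ j, Fin (N j), ∃ c, ∀ Y : ι → ℝ, (∀ j, 0 ≤ Y j) →
        (∀ j, Y j ≤ gauge (C j) (x j) + D * a c j) →
        (∀ j, c j = c₀ j → a c j ≤ gauge (C j) (x j) →
          Y j ≤ gauge (C j) (x j) - κ * a c j) → Y ∈ interior M) →
      ∃ T : Finset (∀ j, E j), T.card ≤ ∏ j, N j ∧
        K ⊆ ⋃ t ∈ T, (fun x => t + x) '' interior K := by
  classical
  choose v κ D hκ0 hκ1 hD1 hv1 hv2 using fun j =>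
    Pool.Agent.H665R3.Lam.step (hCc j) (hCk j) (hC0 j) (hcov j)
  obtain ⟨κ₀, hκ₀0, hκ₀1, hκ₀⟩ : ∃ κ₀ : ℝ, 0 < κ₀ ∧ κ₀ ≤ 1 ∧ ∀ j, κ₀ ≤ κ j := by
    rcases isEmpty_or_nonempty ι with hemp | hnonemp
    · exact ⟨1, one_pos, le_rfl, fun j => (hemp.false j).elim⟩
    · obtain ⟨j, -, hj⟩ := Finset.exists_min_image Finset.univ κ Finset.univ_nonempty
      exact ⟨κ j, hκ0 j, hκ1 j, fun i => hj i (Finset.mem_univ i)⟩
  obtain ⟨D₀, hD₀1, hD₀⟩ : ∃ D₀ : ℝ, 1 ≤ D₀ ∧ ∀ j, D j ≤ D₀ := by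
    rcases isEmpty_or_nonempty ι with hemp | hnonemp
    · exact ⟨1, le_rfl, fun j => (hemp.false j).elim⟩
    · obtain ⟨j, -, hj⟩ := Finset.exists_max_image Finset.univ D Finset.univ_nonempty
      exact ⟨D j, hD1 j, fun i => hj i (Finset.mem_univ i)⟩
  refine ⟨κ₀, D₀, hκ₀0, hκ₀1, hD₀1, ?_⟩
  intro M hMc hMcl hM0 hsol K hK hKb a ha hmain
  obtain ⟨hconv, hcomp, hint0, hint⟩ := body C hCc hC0 M hMc hMcl hM0 hsol K hK hKb
  refine ⟨Finset.univ.image fun (c : ∀ j, Fin (N j)) (j : ι) => a c j • v j (c j), ?_, ?_⟩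
  · refine Finset.card_image_le.trans ?_
    rw [Finset.card_univ, Fintype.card_pi]
    simp
  · intro x hx
    choose cc hcc using fun j => hv2 j (x j)
    obtain ⟨c, hc⟩ := hmain x hx cc
    have hy : x - (fun j => a c j • v j (c j)) ∈ interior K := by
      apply hint
      apply hc
      · intro j
        exact gauge_nonneg _
      · intro j
        refine (hv1 j (c j) (x j) _ (ha c j)).trans ?_
        have := mul_le_mul_of_nonneg_right (hD₀ j) (ha c j)
        linarith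
      · intro j hj hj2
        have h1 := hcc j _ (ha c j) hj2
        rw [← hj] at h1
        refine h1.trans ?_
        have := mul_le_mul_of_nonneg_right (hκ₀ j) (ha c j)
        linarith
    refine Set.mem_iUnion₂.2 ⟨_, Finset.mem_image_of_mem _ (Finset.mem_univ c), _, hy, ?_⟩
    simp

/-- **Kraft sums.** -/
theorem kraft {E : ι → Type} [∀ j, NormedAddCommGroup (E j)]
    [∀ j, NormedSpace ℝ (E j)] [∀ j, FiniteDimensional ℝ (E j)]
    (C : ∀ j, Set (E j)) (hCc : ∀ j, Convex ℝ (C j))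
    (hCk : ∀ j, IsCompact (C j)) (hC0 : ∀ j, (0 : E j) ∈ interior (C j))
    (N : ι → ℕ) (hsum : ∑ j, (1 : ℝ) / N j ≤ 1)
    (hcov : ∀ j, ∃ T : Finset (E j), T.card ≤ N j ∧
      C j ⊆ ⋃ t ∈ T, (fun x => t + x) '' interior (C j))
    (M : Set (ι → ℝ)) (hMc : Convex ℝ M) (hMcl : IsClosed M)
    (hM0 : (0 : ι → ℝ) ∈ interior M) (hsol : Sol M)
    (K : Set (∀ j, E j)) (hK : K = {x | (fun j => gauge (C j) (x j)) ∈ M})
    (hKb : Bornology.IsBounded K) :
    Convex ℝ K ∧ IsCompact K ∧ (0 : ∀ j, E j) ∈ interior K ∧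
    ∃ T : Finset (∀ j, E j), T.card ≤ ∏ j, N j ∧
      K ⊆ ⋃ t ∈ T, (fun x => t + x) '' interior K := by
  classical
  have hN : ∀ j, 0 < N j := by
    intro j
    obtain ⟨T, hT, hcT⟩ := hcov j
    have h := hcT (interior_subset (hC0 j))
    simp only [Set.mem_iUnion] at h
    obtain ⟨t, ht, -⟩ := h
    exact (Finset.card_pos.2 ⟨t, ht⟩).trans_le hT
  obtain ⟨hconv, hcomp, hint0, hint⟩ := body C hCc hC0 M hMc hMcl hM0 hsol K hK hKb
  refine ⟨hconv, hcomp, hint0, ?_⟩
  obtain ⟨κ, D, hκ0, hκ1, hD1, hred⟩ := reduce C hCc hCk hC0 N hcov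
  obtain ⟨b, hb1, hb2⟩ := exists_rank N hN hsum
  have hD0 : 0 < D := by linarith
  -- `η`
  obtain ⟨r, hr, hball⟩ := Metric.isOpen_iff.1 (isOpen_interior (s := M)) 0 hM0
  set η : ℝ := r / 4 with hη
  have hη0 : 0 < η := by positivity
  have hz : (fun _ => 3 * η : ι → ℝ) ∈ M := by
    apply interior_subset
    apply hball
    rw [Metric.mem_ball]
    refine lt_of_le_of_lt ((dist_pi_le_iff (by positivity : (0 : ℝ) ≤ 3 * η)).2 ?_)
      (by rw [hη]; linarith : 3 * η < r)
    intro i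
    rw [Real.dist_eq, Pi.zero_apply, sub_zero, abs_of_pos (by positivity)]
  -- bound
  have hGc : Continuous (fun (x : ∀ j, E j) (j : ι) => gauge (C j) (x j)) := by
    refine continuous_pi fun j => ?_
    exact (continuous_gauge (hCc j) (mem_interior_iff_mem_nhds.1 (hC0 j))).comp
      (continuous_apply j)
  obtain ⟨R, hR0, hR⟩ : ∃ R : ℝ, 0 < R ∧ ∀ x ∈ K, ∀ j, gauge (C j) (x j) ≤ R := by
    obtain ⟨R, hR⟩ := (hcomp.image hGc).isBounded.exists_norm_le
    refine ⟨max R 1, lt_max_of_lt_right one_pos, ?_⟩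
    intro x hx j
    have h1 := hR _ (Set.mem_image_of_mem _ hx)
    have h2 := norm_le_pi_norm (fun j => gauge (C j) (x j)) j
    exact ((le_abs_self _).trans (h2.trans h1)).trans (le_max_left _ _)
  set ε : ℝ := η / D with hε
  have hε0 : 0 < ε := by positivity
  have hεη : ε ≤ η := div_le_self hη0.le hD1
  have hεD : D * ε = η := by rw [hε, mul_div_cancel₀ _ hD0.ne']
  set δ : ℝ := min 1 (η * κ / (2 * (R * D))) with hδ
  have hδ0 : 0 < δ := lt_min one_pos (by positivity)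
  have hδ1 : δ ≤ 1 := min_le_left _ _
  have hδ2 : δ * (2 * (R * D)) ≤ η * κ := by
    have := min_le_right 1 (η * κ / (2 * (R * D)))
    rwa [← hδ, le_div_iff₀ (by positivity)] at this
  set n : ℕ := Fintype.card ι + 1 with hn
  have hε2 : ∀ m : ℕ, 0 < ε * δ ^ m := fun m => mul_pos hε0 (pow_pos hδ0 m)
  have hε3 : ∀ m : ℕ, ε * δ ^ m ≤ ε := fun m => by
    have := pow_le_one₀ (n := m) hδ0.le hδ1
    nlinarith
  refine hred M hMc hMcl hM0 hsol K hK hKb (fun c j => ε * δ ^ (n - b c j))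
    (fun c j => (hε2 _).le) ?_
  intro x hx c₀
  set X : ι → ℝ := fun j => gauge (C j) (x j) with hX
  have hX0 : ∀ j, 0 ≤ X j := fun j => gauge_nonneg _
  have hXM : X ∈ M := by
    rw [hK] at hx
    exact hx
  have hXR : ∀ j, X j ≤ R := fun j => hR x hx j
  set S : Finset ι := Finset.univ.filter (fun i => η ≤ X i) with hS
  obtain ⟨c, hc1, hc2⟩ := hb2 S c₀
  refine ⟨c, ?_⟩
  intro Y hY0 hY1 hY2
  change ∀ j, Y j ≤ X j + D * (ε * δ ^ (n - b c j)) at hY1
  change ∀ j, c j = c₀ j → ε * δ ^ (n - b c j) ≤ X j →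
    Y j ≤ X j - κ * (ε * δ ^ (n - b c j)) at hY2
  rcases S.eq_empty_or_nonempty with hSe | hSne
  · refine interior_of_lt hMc hM0 hsol hz hY0 fun i => ?_
    have h1 : X i < η := by
      by_contra hcon
      push Not at hcon
      have : i ∈ S := Finset.mem_filter.2 ⟨Finset.mem_univ i, hcon⟩
      rw [hSe] at this
      exact absurd this (Finset.notMem_empty i)
    have h2 := hY1 i
    have h3 : D * (ε * δ ^ (n - b c i)) ≤ η := by
      rw [← hεD]
      exact mul_le_mul_of_nonneg_left (hε3 _) hD0.le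
    linarith
  · obtain ⟨i₀, hi₀, hmin⟩ := Finset.exists_min_image S (fun i => ε * δ ^ (n - b c i)) hSne
    set A : ℝ := ε * δ ^ (n - b c i₀) with hA
    have hA0 : 0 < A := hε2 _
    have hAε : A ≤ ε := hε3 _
    set l : ℝ := κ * A / (2 * R) with hl
    have hl0 : 0 < l := by positivity
    have hηR : η ≤ R := (Finset.mem_filter.1 hi₀).2.trans (hXR i₀)
    have hlR : l * R = κ * A / 2 := by
      rw [hl]
      field_simp
    have hl1 : l ≤ 1 := by
      rw [hl, div_le_one (by positivity)]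
      nlinarith
    set p : ι → ℝ := (1 - l) • X + l • (fun _ => 3 * η : ι → ℝ) with hp
    have hpM : p ∈ M := hMc hXM hz (by linarith) hl0.le (by ring)
    have hpi : ∀ i, p i = (1 - l) * X i + l * (3 * η) := by
      intro i
      simp only [hp, Pi.add_apply, Pi.smul_apply, smul_eq_mul]
    refine interior_of_lt hMc hM0 hsol hpM hY0 fun i => ?_
    rw [hpi]
    by_cases hi : i ∈ S
    · have hXi : η ≤ X i := (Finset.mem_filter.1 hi).2
      have h1 := hY2 i (hc1 i hi) ((hε3 _).trans (hεη.trans hXi))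
      have h2 : A ≤ ε * δ ^ (n - b c i) := hmin i hi
      have h3 : κ * A ≤ κ * (ε * δ ^ (n - b c i)) := mul_le_mul_of_nonneg_left h2 hκ0.le
      have h4 : l * X i ≤ l * R := mul_le_mul_of_nonneg_left (hXR i) hl0.le
      have h5 : 0 < l * (3 * η) := by positivity
      have h6 : 0 < κ * A := by positivity
      have h7 : (1 - l) * X i = X i - l * X i := by ring
      rw [h7]
      linarith
    · have hXi : X i < η := by
        by_contra hcon
        push Not at hcon
        exact hi (Finset.mem_filter.2 ⟨Finset.mem_univ i, hcon⟩)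
      have hlt := hc2 i₀ hi₀ i hi
      have hle := hb1 c i₀
      have h1 : ε * δ ^ (n - b c i) ≤ δ * A := by
        rw [hA]
        have h2 : δ ^ (n - b c i) ≤ δ ^ ((n - b c i₀) + 1) :=
          pow_le_pow_of_le_one hδ0.le hδ1 (by omega)
        calc ε * δ ^ (n - b c i) ≤ ε * δ ^ ((n - b c i₀) + 1) :=
              mul_le_mul_of_nonneg_left h2 hε0.le
          _ = δ * (ε * δ ^ (n - b c i₀)) := by ring
      have h2 := hY1 i
      have h3 : D * (ε * δ ^ (n - b c i)) ≤ D * (δ * A) := mul_le_mul_of_nonneg_left h1 hD0.le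
      have h4 : D * (δ * A) ≤ l * η := by
        rw [hl]
        have : κ * A / (2 * R) * η = (η * κ) * (A / (2 * R)) := by ring
        rw [this]
        have h5 : δ * (2 * (R * D)) * (A / (2 * R)) ≤ η * κ * (A / (2 * R)) :=
          mul_le_mul_of_nonneg_right hδ2 (by positivity)
        have h6 : δ * (2 * (R * D)) * (A / (2 * R)) = D * (δ * A) := by
          field_simp
        linarith
      have h5 : l * X i ≤ l * η := mul_le_mul_of_nonneg_left hXi.le hl0.le
      have h6 : 0 < l * η := by positivity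
      have h7 : (1 - l) * X i + l * (3 * η) = X i - l * X i + 3 * (l * η) := by ring
      rw [h7]
      linarith

end Pool.Agent.R753
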