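import Mathlib
import Pool.Agent.R753.Sums

set_option autoImplicit false

/-!
Unconditional sums of three convex bodies.
-/

namespace Pool.Agent.R753.Three

open Filter Topology

/-- the point with the coordinate `h` at `l`, the coordinate `T` at `z`, and `0` elsewhere -/
def pt (l z : Fin 3) (h T : ℝ) : Fin 3 → ℝ := fun i => if i = l then h else if i = z then T else 0

lemma exhaust : ∀ t z l : Fin 3, t ≠ z → t ≠ l → z ≠ l → ∀ i, i = t ∨ i = z ∨ i = l := by
  decide

lemma pt_l (l z : Fin 3) (h T : ℝ) : pt l z h T l = h := by simp [pt]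

lemma pt_z {l z : Fin 3} (hzl : z ≠ l) (h T : ℝ) : pt l z h T z = T := by simp [pt, hzl]

lemma pt_t {t l z : Fin 3} (htl : t ≠ l) (htz : t ≠ z) (h T : ℝ) : pt l z h T t = 0 := by
  simp [pt, htl, htz]

/-- the intermediate case: a large gain at `t`, a small loss at `z`, and a very small gain at
`l`. -/
lemma midcase {M : Set (Fin 3 → ℝ)} (hMc : Convex ℝ M) (hM0 : (0 : Fin 3 → ℝ) ∈ interior M)
    (hsol : Sol M) {X Y : Fin 3 → ℝ} (hX : X ∈ M) {R κ ε D τ s h' T lam : ℝ}
    (hXR : ∀ i, X i ≤ R) (hY0 : ∀ i, 0 ≤ Y i) {t z l : Fin 3} (htz : t ≠ z) (htl : t ≠ l)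
    (hzl : z ≠ l) (hlam0 : 0 < lam) (hlam1 : lam ≤ 1) (hlamR : lam * R = κ * ε / 2)
    (hκε : 0 < κ * ε) (hDτ : 0 < D * τ) (hκs : 0 < κ * s) (hQ : pt l z h' T ∈ M)
    (hT : lam * τ + 2 * (D * τ) ≤ lam * T) (hXz : X z ≤ τ) (hYt : Y t ≤ X t - κ * ε)
    (hYz : Y z ≤ X z + D * τ) (hYl : Y l ≤ X l - κ * s) (hh : lam * (X l - h') ≤ κ * s / 2) :
    Y ∈ interior M := by
  set p : Fin 3 → ℝ := (1 - lam) • X + lam • (pt l z h' T) with hp
  have hpM : p ∈ M := hMc hX hQ (by linarith) hlam0.le (by ring)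
  have hpi : ∀ i, p i = (1 - lam) * X i + lam * (pt l z h' T i) := by
    intro i
    simp only [hp, Pi.add_apply, Pi.smul_apply, smul_eq_mul]
  refine interior_of_lt hMc hM0 hsol hpM hY0 fun i => ?_
  rw [hpi]
  rcases exhaust t z l htz htl hzl i with rfl | rfl | rfl
  · rw [pt_t htl htz]
    have h1 : lam * X i ≤ lam * R := mul_le_mul_of_nonneg_left (hXR i) hlam0.le
    have h2 : (1 - lam) * X i + lam * 0 = X i - lam * X i := by ring
    rw [h2]
    linarith
  · rw [pt_z hzl]
    have h1 : lam * X i ≤ lam * τ := mul_le_mul_of_nonneg_left hXz hlam0.le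
    have h2 : (1 - lam) * X i + lam * T = X i + (lam * T - lam * X i) := by ring
    rw [h2]
    linarith
  · rw [pt_l]
    have h2 : (1 - lam) * X i + lam * h' = X i - lam * (X i - h') := by ring
    rw [h2]
    linarith

/-- parity -/
def par (σ : Fin 3 → Bool) : Bool := xor (σ 0) (xor (σ 1) (σ 2))

/-- the coordinate with the largest weight -/
def top (z₀ : Fin 3) (σ : Fin 3 → Bool) : Fin 3 :=
  if par σ then z₀ else (if σ z₀ then z₀ + 2 else z₀ + 1)

/-- the coordinate with the smallest weight -/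
def low (z₀ : Fin 3) (σ : Fin 3 → Bool) : Fin 3 :=
  if par σ then (if σ z₀ then z₀ + 2 else z₀ + 1) else z₀

/-- the coordinate with the intermediate weight -/
def mid (z₀ : Fin 3) (σ : Fin 3 → Bool) : Fin 3 := if σ z₀ then z₀ + 1 else z₀ + 2

lemma distinct : ∀ (z₀ : Fin 3) (σ : Fin 3 → Bool), top z₀ σ ≠ mid z₀ σ ∧ top z₀ σ ≠ low z₀ σ ∧
    mid z₀ σ ≠ low z₀ σ := by
  decide

lemma comb1 : ∀ (z₀ i : Fin 3) (ρ : Fin 3 → Bool), ∃ σ : Fin 3 → Bool, σ i = ρ i ∧
    top z₀ σ = i := by
  decide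

lemma comb2 : ∀ (z₀ z : Fin 3) (ρ : Fin 3 → Bool),
    (∃ σ : Fin 3 → Bool, (∀ i, i ≠ z → σ i = ρ i) ∧ low z₀ σ = z) ∨
    (z ≠ z₀ ∧ mid z₀ ρ = z ∧ ∀ l, l ≠ z → ∃ σ : Fin 3 → Bool, (∀ i, i ≠ z → σ i = ρ i) ∧
      mid z₀ σ = z ∧ low z₀ σ = l) := by
  decide


/-- The statement about the profile set. -/
lemma profile {M : Set (Fin 3 → ℝ)} (hMc : Convex ℝ M) (hMcl : IsClosed M)
    (hM0 : (0 : Fin 3 → ℝ) ∈ interior M) (hsol : Sol M) {R κ D : ℝ} (hR0 : 0 < R) (hκ0 : 0 < κ)
    (hκ1 : κ ≤ 1) (hD1 : 1 ≤ D) :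
    ∃ W : (Fin 3 → Bool) → Fin 3 → ℝ, (∀ σ j, 0 < W σ j) ∧
      ∀ X ∈ M, (∀ i, 0 ≤ X i) → (∀ i, X i ≤ R) → ∀ ρ : Fin 3 → Bool, ∃ σ : Fin 3 → Bool,
        ∀ Y : Fin 3 → ℝ, (∀ j, 0 ≤ Y j) → (∀ j, Y j ≤ X j + D * W σ j) →
        (∀ j, σ j = ρ j → W σ j ≤ X j → Y j ≤ X j - κ * W σ j) → Y ∈ interior M := by
  classical
  have hD0 : 0 < D := by linarith
  -- `η`
  obtain ⟨r, hr, hball⟩ := Metric.isOpen_iff.1 (isOpen_interior (s := M)) 0 hM0
  set η : ℝ := min (r / 4) (R / 3) with hη
  have hη0 : 0 < η := lt_min (by positivity) (by positivity)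
  have hηr : η ≤ r / 4 := min_le_left _ _
  have hηR : 3 * η ≤ R := by
    have : η ≤ R / 3 := min_le_right _ _
    linarith
  have hz : (fun _ => 3 * η : Fin 3 → ℝ) ∈ M := by
    apply interior_subset
    apply hball
    rw [Metric.mem_ball]
    refine lt_of_le_of_lt ((dist_pi_le_iff (by positivity : (0 : ℝ) ≤ 3 * η)).2 ?_)
      (by linarith : 3 * η < r)
    intro i
    rw [Real.dist_eq, Pi.zero_apply, sub_zero, abs_of_pos (by positivity)]
  -- nonnegative solidity
  have hsol' : ∀ x ∈ M, ∀ y : Fin 3 → ℝ, (∀ i, 0 ≤ y i) → (∀ i, y i ≤ x i) → y ∈ M := by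
    intro x hx y hy1 hy2
    refine hsol x hx y fun i => ?_
    rw [Set.mem_uIcc]
    exact Or.inl ⟨hy1 i, hy2 i⟩
  -- the heights
  have hheight : ∀ l : Fin 3, ∃ h : ℝ, 3 * η ≤ h ∧ h ≤ R ∧ (fun i => if i = l then h else 0) ∈ M ∧
      ∀ t : ℝ, 0 ≤ t → t ≤ R → (fun i => if i = l then t else 0) ∈ M → t ≤ h := by
    intro l
    have hcont : Continuous (fun (t : ℝ) (i : Fin 3) => if i = l then t else 0) := by
      refine continuous_pi fun i => ?_
      by_cases hi : i = l
      · simp only [if_pos hi]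
        exact continuous_id
      · simp only [if_neg hi]
        exact continuous_const
    have hcomp : IsCompact (Set.Icc (0 : ℝ) R ∩
        (fun (t : ℝ) (i : Fin 3) => if i = l then t else 0) ⁻¹' M) :=
      isCompact_Icc.inter_right (hMcl.preimage hcont)
    have hmem : 3 * η ∈ Set.Icc (0 : ℝ) R ∩
        (fun (t : ℝ) (i : Fin 3) => if i = l then t else 0) ⁻¹' M := by
      refine ⟨⟨by positivity, hηR⟩, ?_⟩
      refine hsol' _ hz _ ?_ ?_
      · intro i
        try dsimp only
        split_ifs <;> positivity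
      · intro i
        try dsimp only
        split_ifs
        · exact le_rfl
        · positivity
    obtain ⟨h, hh, hmax⟩ := hcomp.exists_isGreatest ⟨_, hmem⟩
    exact ⟨h, hmax hmem, hh.1.2, hh.2, fun t ht0 htR ht => hmax ⟨⟨ht0, htR⟩, ht⟩⟩
  choose h hh1 hh2 hh3 hh4 using hheight
  have hXh : ∀ X ∈ M, (∀ i, 0 ≤ X i) → (∀ i, X i ≤ R) → ∀ l, X l ≤ h l := by
    intro X hX hX0 hXR l
    refine hh4 l (X l) (hX0 l) (hXR l) (hsol' X hX _ ?_ ?_)
    · intro i
      try dsimp only
      split_ifs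
      · exact hX0 l
      · exact le_rfl
    · intro i
      try dsimp only
      split_ifs with hi
      · rw [hi]
      · exact hX0 i
  have hh0 : ∀ l, 0 < h l := fun l => lt_of_lt_of_le (by positivity) (hh1 l)
  -- parameters
  set ε : ℝ := η / D with hε
  have hε0 : 0 < ε := by positivity
  have hεη : ε ≤ η := div_le_self hη0.le hD1
  have hεD : D * ε = η := by rw [hε, mul_div_cancel₀ _ hD0.ne']
  set δ : ℝ := min 1 (η * κ / (2 * (R * D))) with hδ
  have hδ0 : 0 < δ := lt_min one_pos (by positivity)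
  have hδ1 : δ ≤ 1 := min_le_left _ _
  have hδ2 : δ * (2 * (R * D)) ≤ η * κ := by
    have := min_le_right 1 (η * κ / (2 * (R * D)))
    rwa [← hδ, le_div_iff₀ (by positivity)] at this
  set lam : ℝ := κ * ε / (2 * R) with hlam
  have hlam0 : 0 < lam := by positivity
  have hκε : κ * ε ≤ R := by
    have : κ * ε ≤ 1 * η := mul_le_mul hκ1 hεη hε0.le zero_le_one
    linarith
  have hlam1 : lam ≤ 1 := by
    rw [hlam, div_le_one (by positivity)]
    linarith
  have hlamR : lam * R = κ * ε / 2 := by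
    rw [hlam]
    field_simp
  set α : ℝ := κ * δ / (2 * (lam + 2 * D)) with hα
  have hα0 : 0 < α := by positivity
  -- the uniform statement for the intermediate case
  have hpoint : ∃ z₀ : Fin 3, ∃ T₁ : ℝ, 0 < T₁ ∧ ∀ z, z ≠ z₀ → ∀ X ∈ M, (∀ i, 0 ≤ X i) →
      (∀ i, X i ≤ R) → ∃ l, l ≠ z ∧ ∀ T, 0 < T → T ≤ T₁ → ∃ h', pt l z h' T ∈ M ∧
        X l - h' ≤ α * T := by
    set SM : Fin 3 → Fin 3 → Prop := fun l z => ∃ T₀ : ℝ, 0 < T₀ ∧ ∀ T, 0 < T → T ≤ T₀ →
      pt l z (h l - α * T) T ∈ M with hSM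
    set cn : Fin 3 → (Fin 3 → ℝ) := fun z i => if i = z then 0 else h i with hcn
    have huniq : ∀ z z', (cn z ∈ M ∧ ∀ l, l ≠ z → ¬ SM l z) →
        (cn z' ∈ M ∧ ∀ l, l ≠ z' → ¬ SM l z') → z = z' := by
      rintro z z' ⟨hz1, -⟩ ⟨-, hz2⟩
      by_contra hne
      obtain ⟨w, hwz, hwz'⟩ : ∃ w : Fin 3, w ≠ z ∧ w ≠ z' := by
        have : ∀ i j : Fin 3, ∃ k : Fin 3, k ≠ i ∧ k ≠ j := by decide
        exact this z z'
      refine hz2 w hwz' ⟨min (h z') (h w / α), lt_min (hh0 _) (div_pos (hh0 _) hα0), ?_⟩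
      intro T hT0 hT
      have hT1 : T ≤ h z' := hT.trans (min_le_left _ _)
      have hT2 : α * T ≤ h w := by
        have := hT.trans (min_le_right _ _)
        rw [le_div_iff₀ hα0] at this
        linarith
      have hαT : 0 < α * T := by positivity
      refine hsol' _ hz1 _ ?_ ?_
      · intro i
        simp only [pt]
        split_ifs
        · linarith
        · exact hT0.le
        · exact le_rfl
      · intro i
        simp only [pt, hcn]
        by_cases hiw : i = w
        · rw [if_pos hiw, if_neg (by rw [hiw]; exact hwz), hiw]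
          linarith
        · rw [if_neg hiw]
          by_cases hiz' : i = z'
          · rw [if_pos hiz', if_neg (by rw [hiz']; exact fun h => hne h.symm), hiz']
            exact hT1
          · rw [if_neg hiz']
            split_ifs
            · exact le_rfl
            · exact (hh0 i).le
    have hz₀ : ∃ z₀ : Fin 3, ∀ z, z ≠ z₀ → cn z ∉ M ∨ ∃ l, l ≠ z ∧ SM l z := by
      by_cases hbad : ∃ z, cn z ∈ M ∧ ∀ l, l ≠ z → ¬ SM l z
      · obtain ⟨z₀, hz₀⟩ := hbad
        refine ⟨z₀, fun z hz => ?_⟩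
        by_contra hcon
        push Not at hcon
        exact hz (huniq z z₀ hcon hz₀)
      · refine ⟨0, fun z _ => ?_⟩
        by_contra hcon
        push Not at hcon
        exact hbad ⟨z, hcon⟩
    obtain ⟨z₀, hz₀⟩ := hz₀
    have hT : ∀ z : Fin 3, ∃ T₁ : ℝ, 0 < T₁ ∧ (z ≠ z₀ → ∀ X ∈ M, (∀ i, 0 ≤ X i) →
      (∀ i, X i ≤ R) → ∃ l, l ≠ z ∧ ∀ T, 0 < T → T ≤ T₁ → ∃ h', pt l z h' T ∈ M ∧
        X l - h' ≤ α * T) := by
      intro z
      by_cases hzz : z = z₀
      · exact ⟨1, one_pos, fun hne => absurd hzz hne⟩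
      rcases hz₀ z hzz with hc | ⟨l, hlz, T₀, hT₀, hsm⟩
      · -- the corner is not in `M`
        obtain ⟨γ, hγ0, hγ⟩ := Metric.isOpen_iff.1 hMcl.isOpen_compl (cn z) hc
        refine ⟨3 * η * min 1 (γ / (2 * R)), by positivity, fun _ X hX hX0 hXR => ?_⟩
        have hex : ∃ l, l ≠ z ∧ X l ≤ h l - γ / 2 := by
          by_contra hcon
          push Not at hcon
          have hw : (fun i => if i = z then 0 else X i : Fin 3 → ℝ) ∈ M := by
            refine hsol' X hX _ ?_ ?_
            · intro i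
              try dsimp only
              split_ifs
              · exact le_rfl
              · exact hX0 i
            · intro i
              try dsimp only
              split_ifs
              · exact hX0 i
              · exact le_rfl
          have hw2 : (fun i => if i = z then 0 else X i : Fin 3 → ℝ) ∈ Metric.ball (cn z) γ := by
            rw [Metric.mem_ball]
            refine lt_of_le_of_lt ((dist_pi_le_iff (by positivity : (0 : ℝ) ≤ γ / 2)).2 ?_)
              (by linarith : γ / 2 < γ)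
            intro i
            simp only [hcn, Real.dist_eq]
            split_ifs with hi
            · simp only [sub_self, abs_zero]
              positivity
            · rw [abs_le]
              have h1 := hcon i hi
              have h2 := hXh X hX hX0 hXR i
              constructor <;> linarith
          exact hγ hw2 hw
        obtain ⟨l, hlz, hXl⟩ := hex
        refine ⟨l, hlz, fun T hT0 hT1 => ?_⟩
        have hη3 : 0 < 3 * η := by positivity
        set μ : ℝ := T / (3 * η) with hμ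
        have hμ0 : 0 < μ := by positivity
        have hμmin : μ ≤ min 1 (γ / (2 * R)) := by
          rw [hμ, div_le_iff₀ hη3]
          linarith
        have hμ1 : μ ≤ 1 := hμmin.trans (min_le_left _ _)
        have hμ2 : μ * R ≤ γ / 2 := by
          have := hμmin.trans (min_le_right _ _)
          rw [le_div_iff₀ (by positivity)] at this
          linarith
        refine ⟨(1 - μ) * h l, ?_, ?_⟩
        · have hcomb := hMc (hh3 l) (hsol' _ hz (fun i => if i = z then 3 * η else 0)
            (by intro i; split_ifs <;> positivity)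
            (by intro i; split_ifs; exacts [le_rfl, hη3.le]))
            (by linarith : 0 ≤ 1 - μ) hμ0.le (by ring)
          have e : pt l z ((1 - μ) * h l) T = (1 - μ) • (fun i => if i = l then h l else 0) +
              μ • (fun i => if i = z then 3 * η else 0) := by
            funext i
            simp only [pt, Pi.add_apply, Pi.smul_apply, smul_eq_mul]
            by_cases hil : i = l
            · have hiz : i ≠ z := by rw [hil]; exact hlz
              simp [hil, hlz]
            · by_cases hiz : i = z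
              · rw [if_neg hil, if_pos hiz, if_neg hil, if_pos hiz, hμ]
                field_simp
                ring
              · simp [hil, hiz]
          rw [e]
          exact hcomb
        · have h1 : μ * h l ≤ μ * R := mul_le_mul_of_nonneg_left (hh2 l) hμ0.le
          have h2 : 0 < α * T := by positivity
          have h3 : (1 - μ) * h l = h l - μ * h l := by ring
          rw [h3]
          linarith
      · refine ⟨T₀, hT₀, fun _ X hX hX0 hXR => ⟨l, hlz, fun T hT0 hT1 => ⟨_, hsm T hT0 hT1, ?_⟩⟩⟩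
        have := hXh X hX hX0 hXR l
        linarith
    choose f hf0 hf using hT
    refine ⟨z₀, min (f 0) (min (f 1) (f 2)), lt_min (hf0 0) (lt_min (hf0 1) (hf0 2)), ?_⟩
    intro z hz X hX hX0 hXR
    obtain ⟨l, hlz, hl⟩ := hf z hz X hX hX0 hXR
    refine ⟨l, hlz, fun T hT0 hT => hl T hT0 (hT.trans ?_)⟩
    fin_cases z
    · exact min_le_left _ _
    · exact (min_le_right _ _).trans (min_le_left _ _)
    · exact (min_le_right _ _).trans (min_le_right _ _)
  obtain ⟨z₀, T₁, hT₁0, hT₁⟩ := hpoint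
  have hq0 : 0 < 1 + 2 * D / lam := by positivity
  set τ : ℝ := min (δ * ε) (T₁ / (1 + 2 * D / lam)) with hτ
  have hτ0 : 0 < τ := lt_min (by positivity) (by positivity)
  have hτ1 : τ ≤ δ * ε := min_le_left _ _
  have hτ2 : τ * (1 + 2 * D / lam) ≤ T₁ := by
    have := min_le_right (δ * ε) (T₁ / (1 + 2 * D / lam))
    rwa [← hτ, le_div_iff₀ hq0] at this
  have hτε : τ ≤ ε := hτ1.trans (by nlinarith)
  set s : ℝ := δ * τ with hs
  have hs0 : 0 < s := by positivity
  have hsτ : s ≤ τ := by rw [hs]; nlinarith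
  refine ⟨fun σ j => if j = top z₀ σ then ε else if j = low z₀ σ then s else τ, ?_, ?_⟩
  · intro σ j
    dsimp only
    split_ifs
    exacts [hε0, hs0, hτ0]
  intro X hX hX0 hXR ρ
  -- the weights
  set W : (Fin 3 → Bool) → Fin 3 → ℝ := fun σ j => if j = top z₀ σ then ε else
    if j = low z₀ σ then s else τ with hW
  have hWtop : ∀ σ, W σ (top z₀ σ) = ε := fun σ => by simp [hW]
  have hWlow : ∀ σ, W σ (low z₀ σ) = s := fun σ => by
    simp only [hW]
    rw [if_neg (distinct z₀ σ).2.1.symm]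
    simp
  have hWmid : ∀ σ, W σ (mid z₀ σ) = τ := fun σ => by
    simp only [hW]
    rw [if_neg (distinct z₀ σ).1.symm, if_neg (distinct z₀ σ).2.2]
  have hWs : ∀ σ j, s ≤ W σ j := by
    intro σ j
    simp only [hW]
    split_ifs
    exacts [hsτ.trans hτε, le_rfl, hsτ]
  have hWε : ∀ σ j, W σ j ≤ ε := by
    intro σ j
    simp only [hW]
    split_ifs
    exacts [le_rfl, hsτ.trans hτε, hτε]
  have hκA : ∀ A : ℝ, A ≤ ε → κ * A ≤ 2 * R := by
    intro A hA
    have : κ * A ≤ κ * ε := mul_le_mul_of_nonneg_left hA hκ0.le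
    linarith
  by_cases hS3 : ∀ i, τ ≤ X i ∧ (i ≠ mid z₀ ρ → η ≤ X i)
  · -- all coordinates gain
    refine ⟨ρ, fun Y hY0 _ hY2 => ?_⟩
    refine gain hMc hM0 hsol hη0 hR0 hκ0 hD0 hs0 hz hδ2 (hκA s (hsτ.trans hτε)) hX hXR hY0
      Set.univ (fun i hi => absurd (Set.mem_univ i) hi) ?_ (fun i hi => absurd (Set.mem_univ i) hi)
    intro i _
    have h1 : W ρ i ≤ X i := by
      by_cases hi : i = mid z₀ ρ
      · rw [hi, hWmid, ← hi]
        exact (hS3 i).1
      · exact (hWε ρ i).trans (hεη.trans ((hS3 i).2 hi))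
    have h2 := hY2 i rfl h1
    have h3 : κ * s ≤ κ * W ρ i := mul_le_mul_of_nonneg_left (hWs ρ i) hκ0.le
    linarith
  by_cases hS2 : ∃ z, X z < η ∧ ∀ i, i ≠ z → η ≤ X i
  · obtain ⟨z, hXz, hXo⟩ := hS2
    rcases comb2 z₀ z ρ with ⟨σ, hσ1, hσ2⟩ | ⟨hzz, hmid, hcomb⟩
    · -- `z` has the smallest weight
      refine ⟨σ, fun Y hY0 hY1 hY2 => ?_⟩
      refine gain hMc hM0 hsol hη0 hR0 hκ0 hD0 hτ0 hz hδ2 (hκA τ hτε) hX hXR hY0
        {i | i ≠ z} ?_ ?_ ?_
      · intro i hi
        have hi' : i = z := not_not.1 hi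
        rw [hi']
        exact hXz.le
      · intro i hi
        have hi' : i ≠ z := hi
        have h1 := hY2 i (hσ1 i hi') ((hWε σ i).trans (hεη.trans (hXo i hi')))
        have h2 : τ ≤ W σ i := by
          simp only [hW]
          rw [hσ2]
          split_ifs
          exacts [hτε, le_rfl]
        have h3 : κ * τ ≤ κ * W σ i := mul_le_mul_of_nonneg_left h2 hκ0.le
        linarith
      · intro i hi
        have hi' : i = z := not_not.1 hi
        have h1 := hY1 i
        have h2 : W σ i = s := by rw [hi', ← hσ2]; exact hWlow σ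
        rw [h2] at h1
        exact h1
    · -- `z` has the intermediate weight
      have hXτ : X z < τ := by
        by_contra hcon
        push Not at hcon
        apply hS3
        intro i
        by_cases hi : i = z
        · refine ⟨by rw [hi]; exact hcon, fun h => absurd (hi.trans hmid.symm) h⟩
        · exact ⟨hτε.trans (hεη.trans (hXo i hi)), fun _ => hXo i hi⟩
      obtain ⟨l, hlz, hl⟩ := hT₁ z hzz X hX hX0 hXR
      obtain ⟨σ, hσ1, hσ2, hσ3⟩ := hcomb l hlz
      obtain ⟨hd1, hd2, hd3⟩ := distinct z₀ σ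
      rw [hσ2] at hd1 hd3
      rw [hσ3] at hd2 hd3
      set t : Fin 3 := top z₀ σ with ht
      obtain ⟨h', hh', hh''⟩ := hl (τ * (1 + 2 * D / lam)) (by positivity) hτ2
      refine ⟨σ, fun Y hY0 hY1 hY2 => ?_⟩
      have hlamT : lam * (τ * (1 + 2 * D / lam)) = lam * τ + 2 * (D * τ) := by
        field_simp
      refine midcase hMc hM0 hsol hX hXR hY0 hd1 hd2 hd3 hlam0 hlam1 hlamR (by positivity)
        (by positivity) (by positivity : 0 < κ * s) hh' hlamT.symm.le hXτ.le ?_ ?_ ?_ ?_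
      · have h1 := hY2 t (hσ1 t hd1) ((hWε σ t).trans (hεη.trans (hXo t hd1)))
        have h2 : W σ t = ε := hWtop σ
        rwa [h2] at h1
      · have h1 := hY1 z
        have h2 : W σ z = τ := by rw [← hσ2]; exact hWmid σ
        rwa [h2] at h1
      · have h1 := hY2 l (hσ1 l hlz) ((hWε σ l).trans (hεη.trans (hXo l hlz)))
        have h2 : W σ l = s := by rw [← hσ3]; exact hWlow σ
        rwa [h2] at h1
      · calc lam * (X l - h') ≤ lam * (α * (τ * (1 + 2 * D / lam))) :=
              mul_le_mul_of_nonneg_left hh'' hlam0.le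
          _ = α * (lam * (τ * (1 + 2 * D / lam))) := by ring
          _ = α * (lam * τ + 2 * (D * τ)) := by rw [hlamT]
          _ = κ * s / 2 := by
              rw [hα, hs]
              field_simp
  by_cases hS1 : ∃ i, η ≤ X i
  · obtain ⟨i, hi⟩ := hS1
    -- then the other two coordinates are small
    have hsmall : ∀ j, j ≠ i → X j < η := by
      intro j hj
      by_contra hcon
      push Not at hcon
      obtain ⟨k, hk1, hk2⟩ : ∃ k : Fin 3, k ≠ i ∧ k ≠ j := by
        have : ∀ i j : Fin 3, ∃ k : Fin 3, k ≠ i ∧ k ≠ j := by decide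
        exact this i j
      have hall : ∀ u, u = k ∨ u = i ∨ u = j := exhaust k i j hk1 hk2 hj.symm
      by_cases hk : X k < η
      · apply hS2
        refine ⟨k, hk, fun u hu => ?_⟩
        rcases hall u with rfl | rfl | rfl
        · exact absurd rfl hu
        · exact hi
        · exact hcon
      · push Not at hk
        apply hS3
        intro u
        have : η ≤ X u := by
          rcases hall u with rfl | rfl | rfl
          · exact hk
          · exact hi
          · exact hcon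
        exact ⟨hτε.trans (hεη.trans this), fun _ => this⟩
    obtain ⟨σ, hσ1, hσ2⟩ := comb1 z₀ i ρ
    refine ⟨σ, fun Y hY0 hY1 hY2 => ?_⟩
    refine gain hMc hM0 hsol hη0 hR0 hκ0 hD0 hε0 hz hδ2 (hκA ε le_rfl) hX hXR hY0
      {u | u = i} ?_ ?_ ?_
    · intro u hu
      exact (hsmall u hu).le
    · intro u hu
      have hu' : u = i := hu
      rw [hu']
      have h1 := hY2 i hσ1 ((hWε σ i).trans (hεη.trans hi))
      have h2 : W σ i = ε := by rw [← hσ2]; exact hWtop σ
      rwa [h2] at h1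
    · intro u hu
      have h1 := hY1 u
      have h2 : W σ u ≤ δ * ε := by
        have hu' : u ≠ i := hu
        simp only [hW]
        rw [hσ2, if_neg hu']
        split_ifs
        · exact (hsτ.trans hτ1)
        · exact hτ1
      have h3 : D * W σ u ≤ D * (δ * ε) := mul_le_mul_of_nonneg_left h2 hD0.le
      linarith
  · -- all coordinates are small
    push Not at hS1
    refine ⟨ρ, fun Y hY0 hY1 _ => ?_⟩
    refine interior_of_lt hMc hM0 hsol hz hY0 fun i => ?_
    have h1 := hY1 i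
    have h2 : D * W ρ i ≤ D * ε := mul_le_mul_of_nonneg_left (hWε ρ i) hD0.le
    have h3 := hS1 i
    linarith

/-- **Sums of three bodies.** -/
theorem three {E : Fin 3 → Type} [∀ j, NormedAddCommGroup (E j)]
    [∀ j, NormedSpace ℝ (E j)] [∀ j, FiniteDimensional ℝ (E j)]
    (C : ∀ j, Set (E j)) (hCc : ∀ j, Convex ℝ (C j))
    (hCk : ∀ j, IsCompact (C j)) (hC0 : ∀ j, (0 : E j) ∈ interior (C j))
    (N : Fin 3 → ℕ) (hN : ∀ j, 2 ≤ N j)
    (hcov : ∀ j, ∃ T : Finset (E j), T.card ≤ N j ∧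
      C j ⊆ ⋃ t ∈ T, (fun x => t + x) '' interior (C j))
    (M : Set (Fin 3 → ℝ)) (hMc : Convex ℝ M) (hMcl : IsClosed M)
    (hM0 : (0 : Fin 3 → ℝ) ∈ interior M) (hsol : Sol M)
    (K : Set (∀ j, E j)) (hK : K = {x | (fun j => gauge (C j) (x j)) ∈ M})
    (hKb : Bornology.IsBounded K) :
    Convex ℝ K ∧ IsCompact K ∧ (0 : ∀ j, E j) ∈ interior K ∧
    ∃ T : Finset (∀ j, E j), T.card ≤ ∏ j, N j ∧
      K ⊆ ⋃ t ∈ T, (fun x => t + x) '' interior K := by
  classical
  obtain ⟨hconv, hcomp, hint0, -⟩ := body C hCc hC0 M hMc hMcl hM0 hsol K hK hKb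
  refine ⟨hconv, hcomp, hint0, ?_⟩
  obtain ⟨κ, D, hκ0, hκ1, hD1, hred⟩ := reduce C hCc hCk hC0 N hcov
  have hGc : Continuous (fun (x : ∀ j, E j) (j : Fin 3) => gauge (C j) (x j)) := by
    refine continuous_pi fun j => ?_
    exact (continuous_gauge (hCc j) (mem_interior_iff_mem_nhds.1 (hC0 j))).comp
      (continuous_apply j)
  obtain ⟨R, hR0, hR⟩ : ∃ R : ℝ, 0 < R ∧ ∀ x ∈ K, ∀ j, gauge (C j) (x j) ≤ R := by
    obtain ⟨R, hR⟩ := (hcomp.image hGc).isBounded.exists_norm_le
    refine ⟨max R 1, lt_max_of_lt_right one_pos, ?_⟩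
    intro x hx j
    have h1 := hR _ (Set.mem_image_of_mem _ hx)
    have h2 := norm_le_pi_norm (fun j => gauge (C j) (x j)) j
    exact ((le_abs_self _).trans (h2.trans h1)).trans (le_max_left _ _)
  obtain ⟨W, hW0, hW⟩ := profile hMc hMcl hM0 hsol hR0 hκ0 hκ1 hD1
  refine hred M hMc hMcl hM0 hsol K hK hKb
    (fun c j => W (fun i => decide ((c i : ℕ) = 0)) j) (fun c j => (hW0 _ j).le) ?_
  intro x hx c₀
  have hXM : (fun j => gauge (C j) (x j)) ∈ M := by
    rw [hK] at hx
    exact hx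
  set ρ : Fin 3 → Bool := fun i => decide ((c₀ i : ℕ) = 0) with hρ
  obtain ⟨σ, hσ⟩ := hW _ hXM (fun j => gauge_nonneg _) (fun j => hR x hx j) ρ
  set c : ∀ j, Fin (N j) := fun j => if σ j = ρ j then c₀ j else
    if σ j then ⟨0, by have := hN j; omega⟩ else ⟨1, by have := hN j; omega⟩ with hc
  have hbit : (fun i => decide ((c i : ℕ) = 0)) = σ := by
    funext j
    by_cases hj : σ j = ρ j
    · have hcj : c j = c₀ j := by simp only [hc, if_pos hj]
      rw [hcj, hj]
    · by_cases hσj : σ j = true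
      · have hcj : c j = ⟨0, by have := hN j; omega⟩ := by
          simp only [hc, if_neg hj, if_pos hσj]
        simp only [hcj, hσj, decide_true]
      · have hcj : c j = ⟨1, by have := hN j; omega⟩ := by
          simp only [hc, if_neg hj, if_neg hσj]
        simp only [hcj]
        simp [hσj]
  refine ⟨c, ?_⟩
  rw [hbit]
  intro Y hY0 hY1 hY2
  refine hσ Y hY0 hY1 fun j hj hj2 => hY2 j ?_ hj2
  simp only [hc, if_pos hj]

end Pool.Agent.R753.Three
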