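import Mathlib

set_option autoImplicit false

/-!
Convex corners (anti-blocking bodies): covering by translates of the interior, with the equality
case.
-/

namespace Pool.Agent.R753.Corner

open Filter Topology

variable {n : ℕ}

/-- points strictly below a point of `K`, with positive coordinates, are interior points -/
lemma int_of_lt {K : Set (Fin n → ℝ)}
    (hmono : ∀ x ∈ K, ∀ y : Fin n → ℝ, (∀ i, 0 ≤ y i) → (∀ i, y i ≤ x i) → y ∈ K)
    {p x : Fin n → ℝ} (hp : p ∈ K) (hx0 : ∀ i, 0 < x i) (hxp : ∀ i, x i < p i) :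
    x ∈ interior K := by
  refine mem_interior.2 ⟨{y | (∀ i, 0 < y i) ∧ ∀ i, y i < p i}, ?_, ?_, hx0, hxp⟩
  · rintro y ⟨hy1, hy2⟩
    exact hmono p hp y (fun i => (hy1 i).le) fun i => (hy2 i).le
  · have : {y : Fin n → ℝ | (∀ i, 0 < y i) ∧ ∀ i, y i < p i} =
        ⋂ i, ({y : Fin n → ℝ | 0 < y i} ∩ {y | y i < p i}) := by
      ext y
      simp [forall_and]
    rw [this]
    refine isOpen_iInter_of_finite fun i => IsOpen.inter ?_ ?_
    · exact isOpen_lt continuous_const (continuous_apply i)
    · exact isOpen_lt (continuous_apply i) continuous_const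

/-- some multiple of `(1, …, 1)` belongs to `K` -/
lemma exists_rho {K : Set (Fin n → ℝ)} (hKi : (interior K).Nonempty)
    (hpos : ∀ x ∈ K, ∀ i, 0 ≤ x i)
    (hmono : ∀ x ∈ K, ∀ y : Fin n → ℝ, (∀ i, 0 ≤ y i) → (∀ i, y i ≤ x i) → y ∈ K) :
    ∃ ρ : ℝ, 0 < ρ ∧ (fun _ => ρ : Fin n → ℝ) ∈ K := by
  obtain ⟨a, ha⟩ := hKi
  obtain ⟨r, hr, hball⟩ := Metric.isOpen_iff.1 isOpen_interior a ha
  refine ⟨r / 2, by positivity, ?_⟩
  have h1 : a + (fun _ => r / 2 : Fin n → ℝ) ∈ K := by
    apply interior_subset
    apply hball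
    rw [Metric.mem_ball, dist_eq_norm, add_sub_cancel_left]
    refine lt_of_le_of_lt ((pi_norm_le_iff_of_nonneg (by positivity : (0 : ℝ) ≤ r / 2)).2 ?_)
      (by linarith : r / 2 < r)
    intro i
    rw [Real.norm_eq_abs, abs_of_pos (by positivity)]
  refine hmono _ h1 _ (fun i => by positivity) fun i => ?_
  have := hpos a (interior_subset ha) i
  simp only [Pi.add_apply]
  linarith

/-- the heights -/
lemma exists_heights {K : Set (Fin n → ℝ)} (hKc : IsCompact K) (hKi : (interior K).Nonempty)
    (hpos : ∀ x ∈ K, ∀ i, 0 ≤ x i)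
    (hmono : ∀ x ∈ K, ∀ y : Fin n → ℝ, (∀ i, 0 ≤ y i) → (∀ i, y i ≤ x i) → y ∈ K) :
    ∃ h : Fin n → ℝ, (∀ x ∈ K, ∀ i, x i ≤ h i) ∧
      ∀ i, (fun j => if j = i then h i else 0 : Fin n → ℝ) ∈ K := by
  have hne : K.Nonempty := hKi.mono interior_subset
  choose x hx hmax using fun i : Fin n => hKc.exists_isMaxOn hne (continuous_apply i).continuousOn
  refine ⟨fun i => x i i, fun y hy i => hmax i hy, fun i => ?_⟩
  refine hmono (x i) (hx i) _ (fun j => ?_) fun j => ?_
  · show (0 : ℝ) ≤ if j = i then x i i else 0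
    split_ifs
    · exact hpos _ (hx i) i
    · exact le_rfl
  · show (if j = i then x i i else 0) ≤ x i j
    split_ifs with hj
    · rw [hj]
    · exact hpos _ (hx i) j

/-- The main estimate: `2 ^ n` translates suffice, and if `K` is not a box then the translate for
the full set is not needed. -/
theorem cover {K : Set (Fin n → ℝ)} (hK : Convex ℝ K) (hKc : IsCompact K)
    (hKi : (interior K).Nonempty) (hpos : ∀ x ∈ K, ∀ i, 0 ≤ x i)
    (hmono : ∀ x ∈ K, ∀ y : Fin n → ℝ, (∀ i, 0 ≤ y i) → (∀ i, y i ≤ x i) → y ∈ K) :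
    (∃ T : Finset (Fin n → ℝ), T.card ≤ 2 ^ n ∧ K ⊆ ⋃ t ∈ T, (fun x => t + x) '' interior K) ∧
    ((¬ ∃ h : Fin n → ℝ, K = {x | ∀ i, 0 ≤ x i ∧ x i ≤ h i}) →
      ∃ T : Finset (Fin n → ℝ), T.card ≤ 2 ^ n - 1 ∧
        K ⊆ ⋃ t ∈ T, (fun x => t + x) '' interior K) := by
  classical
  obtain ⟨ρ, hρ0, hρ⟩ := exists_rho hKi hpos hmono
  obtain ⟨h, hh1, hh2⟩ := exists_heights hKc hKi hpos hmono
  obtain ⟨R, hR0, hR⟩ : ∃ R : ℝ, 0 < R ∧ ∀ x ∈ K, ∀ i, x i ≤ R := by
    obtain ⟨R, hR⟩ := hKc.isBounded.exists_norm_le
    refine ⟨max R 1, lt_max_of_lt_right one_pos, ?_⟩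
    intro x hx i
    exact ((le_abs_self _).trans ((norm_le_pi_norm x i).trans (hR x hx))).trans (le_max_left _ _)
  -- the general step, with a parameter `γ`
  have step : ∀ γ : ℝ, 0 < γ → ∃ t : (Fin n → Bool) → (Fin n → ℝ),
      (∀ x ∈ K, ∃ s : Fin n → Bool, x - t s ∈ interior K) ∧
      ((∀ x ∈ K, ∃ j, x j ≤ h j - γ) → ∀ x ∈ K, ∃ s : Fin n → Bool, s ≠ (fun _ => true) ∧
        x - t s ∈ interior K) := by
    intro γ hγ0
    set η : ℝ := ρ / 2 with hη
    have hη0 : 0 < η := by positivity
    set ε : ℝ := min (1 / 2) (η / (4 * R)) with hε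
    have hε0 : 0 < ε := lt_min (by norm_num) (by positivity)
    have hε1 : ε ≤ 1 / 2 := min_le_left _ _
    have hε2 : ε * (4 * R) ≤ η := by
      have := min_le_right (1 / 2) (η / (4 * R))
      rwa [← hε, le_div_iff₀ (by positivity)] at this
    set δ : ℝ := min (ρ / 4) (γ / 2) with hδ
    have hδ0 : 0 < δ := lt_min (by positivity) (by positivity)
    have hδρ : δ ≤ ρ / 4 := min_le_left _ _
    have hδγ : δ ≤ γ / 2 := min_le_right _ _
    have hεR : 0 < ε * R := by positivity
    have hεδ : 0 < ε * δ := by positivity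
    have hεη : ε * η = ε * ρ / 2 := by rw [hη]; ring
    have hεδρ : ε * δ ≤ ε * ρ / 4 := by
      have := mul_le_mul_of_nonneg_left hδρ hε0.le
      linarith
    have hερ : 0 < ε * ρ := by positivity
    set t : (Fin n → Bool) → (Fin n → ℝ) := fun s i => if s i then ε * (2 * R) else -(ε * δ)
      with ht
    have main : ∀ x ∈ K, x - t (fun i => decide (η ≤ x i)) ∈ interior K := by
      intro x hx
      have hcomb : (1 - ε) • x + ε • (fun _ => ρ : Fin n → ℝ) ∈ K :=
        hK hx hρ (by linarith) hε0.le (by ring)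
      refine int_of_lt hmono hcomb ?_ ?_
      · intro i
        have h1 := hpos x hx i
        simp only [ht, Pi.sub_apply]
        by_cases hi : η ≤ x i
        · rw [if_pos (by simp [hi])]
          linarith
        · rw [if_neg (by simp [hi])]
          linarith
      · intro i
        have h1 := hpos x hx i
        have h2 := mul_le_mul_of_nonneg_left (hR x hx i) hε0.le
        simp only [ht, Pi.sub_apply, Pi.add_apply, Pi.smul_apply, smul_eq_mul]
        have h4 : (1 - ε) * x i = x i - ε * x i := by ring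
        rw [h4]
        by_cases hi : η ≤ x i
        · rw [if_pos (by simp [hi])]
          linarith
        · rw [if_neg (by simp [hi])]
          push Not at hi
          have h3 := mul_le_mul_of_nonneg_left hi.le hε0.le
          linarith
    refine ⟨t, fun x hx => ⟨_, main x hx⟩, fun hcor x hx => ?_⟩
    by_cases hall : (fun i => decide (η ≤ x i)) = fun _ => true
    · have hall' : ∀ i, η ≤ x i := fun i => by simpa using congrFun hall i
      obtain ⟨j, hj⟩ := hcor x hx
      refine ⟨fun i => decide (i ≠ j), ?_, ?_⟩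
      · intro heq
        have := congrFun heq j
        simp at this
      · have hcomb : (1 - ε) • x + ε • (fun i => if i = j then h j else 0 : Fin n → ℝ) ∈ K :=
          hK hx (hh2 j) (by linarith) hε0.le (by ring)
        have hεγ : ε * δ ≤ ε * γ / 2 := by
          have := mul_le_mul_of_nonneg_left hδγ hε0.le
          linarith
        have hεγ0 : 0 < ε * γ := by positivity
        refine int_of_lt hmono hcomb ?_ ?_
        · intro i
          have h1 := hall' i
          simp only [ht, Pi.sub_apply]
          by_cases hi : i = j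
          · rw [if_neg (by simp [hi])]
            linarith
          · rw [if_pos (by simp [hi])]
            linarith
        · intro i
          have h1 := hpos x hx i
          have h2 := mul_le_mul_of_nonneg_left (hR x hx i) hε0.le
          simp only [ht, Pi.sub_apply, Pi.add_apply, Pi.smul_apply, smul_eq_mul]
          have h4 : (1 - ε) * x i = x i - ε * x i := by ring
          rw [h4]
          by_cases hi : i = j
          · rw [if_neg (by simp [hi]), if_pos hi, hi]
            have h3 := mul_le_mul_of_nonneg_left hj hε0.le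
            have h5 : ε * (h j - γ) = ε * h j - ε * γ := by ring
            linarith
          · rw [if_pos (by simp [hi]), if_neg hi]
            linarith
    · exact ⟨_, hall, main x hx⟩
  constructor
  · obtain ⟨t, ht, -⟩ := step 1 one_pos
    refine ⟨Finset.univ.image t, ?_, ?_⟩
    · refine Finset.card_image_le.trans ?_
      rw [Finset.card_univ, Fintype.card_fun, Fintype.card_bool, Fintype.card_fin]
    · intro x hx
      obtain ⟨s, hs⟩ := ht x hx
      refine Set.mem_iUnion₂.2 ⟨t s, Finset.mem_image_of_mem _ (Finset.mem_univ s), x - t s, hs, ?_⟩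
      simp
  · intro hbox
    have hcorner : h ∉ K := by
      intro hhK
      apply hbox
      refine ⟨h, Set.Subset.antisymm ?_ ?_⟩
      · intro x hx i
        exact ⟨hpos x hx i, hh1 x hx i⟩
      · intro x hx
        exact hmono h hhK x (fun i => (hx i).1) fun i => (hx i).2
    obtain ⟨γ, hγ0, hγ⟩ := Metric.isOpen_iff.1 hKc.isClosed.isOpen_compl h hcorner
    obtain ⟨t, -, ht⟩ := step (γ / 2) (by positivity)
    have hcor : ∀ x ∈ K, ∃ j, x j ≤ h j - γ / 2 := by
      intro x hx
      by_contra hcon
      push Not at hcon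
      have hxb : x ∈ Metric.ball h γ := by
        rw [Metric.mem_ball]
        refine lt_of_le_of_lt ((dist_pi_le_iff (by positivity : (0 : ℝ) ≤ γ / 2)).2 ?_)
          (by linarith : γ / 2 < γ)
        intro i
        rw [Real.dist_eq, abs_le]
        have h1 := hcon i
        have h2 := hh1 x hx i
        constructor <;> linarith
      exact hγ hxb hx
    refine ⟨(Finset.univ.erase (fun _ => true)).image t, ?_, ?_⟩
    · refine Finset.card_image_le.trans ?_
      rw [Finset.card_erase_of_mem (Finset.mem_univ _), Finset.card_univ, Fintype.card_fun,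
        Fintype.card_bool, Fintype.card_fin]
    · intro x hx
      obtain ⟨s, hs1, hs⟩ := ht hcor x hx
      refine Set.mem_iUnion₂.2 ⟨t s, Finset.mem_image_of_mem _
        (Finset.mem_erase.2 ⟨hs1, Finset.mem_univ s⟩), x - t s, hs, ?_⟩
      simp

/-- A box needs `2 ^ n` translates. -/
theorem box {K : Set (Fin n → ℝ)} (hKi : (interior K).Nonempty) {h : Fin n → ℝ}
    (hbox : K = {x | ∀ i, 0 ≤ x i ∧ x i ≤ h i}) (T : Finset (Fin n → ℝ))
    (hT : K ⊆ ⋃ t ∈ T, (fun x => t + x) '' interior K) : 2 ^ n ≤ T.card := by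
  classical
  have hpi : K = Set.pi Set.univ fun i => Set.Icc 0 (h i) := by
    rw [hbox]
    ext x
    constructor
    · intro hx i _
      exact hx i
    · intro hx i
      exact hx i (Set.mem_univ i)
  have hint : interior K = Set.pi Set.univ fun i => Set.Ioo 0 (h i) := by
    rw [hpi, interior_pi_set Set.finite_univ]
    simp only [interior_Icc]
  have hh0 : ∀ i, 0 < h i := by
    obtain ⟨x, hx⟩ := hKi
    rw [hint] at hx
    intro i
    have := hx i (Set.mem_univ i)
    exact this.1.trans this.2
  have hcor : ∀ s : Fin n → Bool, ∃ t ∈ T, (fun i => (if s i then h i else 0) - t i) ∈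
      interior K := by
    intro s
    have hs : (fun i => if s i then h i else 0 : Fin n → ℝ) ∈ K := by
      rw [hbox]
      intro i
      show 0 ≤ (if s i then h i else 0) ∧ (if s i then h i else 0) ≤ h i
      have := hh0 i
      split_ifs
      · exact ⟨this.le, le_rfl⟩
      · exact ⟨le_rfl, this.le⟩
    obtain ⟨t, ht, y, hy, hty⟩ := Set.mem_iUnion₂.1 (hT hs)
    refine ⟨t, ht, ?_⟩
    have e : (fun i => (if s i then h i else 0) - t i) = y := by
      funext i
      have := congrFun hty i
      simp only [Pi.add_apply] at this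
      linarith
    rw [e]
    exact hy
  choose t ht1 ht2 using hcor
  have hinj : Function.Injective t := by
    intro s s' heq
    by_contra hne
    obtain ⟨i, hi⟩ := Function.ne_iff.1 hne
    have h1 := ht2 s
    have h2 := ht2 s'
    rw [hint] at h1 h2
    have h1' := h1 i (Set.mem_univ i)
    have h2' := h2 i (Set.mem_univ i)
    rw [heq] at h1'
    simp only [Set.mem_Ioo] at h1' h2'
    rcases Bool.eq_false_or_eq_true (s i) with hs | hs <;>
      rcases Bool.eq_false_or_eq_true (s' i) with hs' | hs'
    · exact hi (hs.trans hs'.symm)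
    · simp only [hs, hs', if_true] at h1' h2'
      have e : (if false = true then h i else 0) = 0 := by simp
      rw [e] at h2'
      linarith [h1'.1, h1'.2, h2'.1, h2'.2]
    · simp only [hs, hs', if_true] at h1' h2'
      have e : (if false = true then h i else 0) = 0 := by simp
      rw [e] at h1'
      linarith [h1'.1, h1'.2, h2'.1, h2'.2]
    · exact hi (hs.trans hs'.symm)
  calc 2 ^ n = (Finset.univ : Finset (Fin n → Bool)).card := by
        rw [Finset.card_univ, Fintype.card_fun, Fintype.card_bool, Fintype.card_fin]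
    _ ≤ T.card := Finset.card_le_card_of_injOn t (fun s _ => ht1 s) hinj.injOn

end Pool.Agent.R753.Corner
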