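import Mathlib

set_option autoImplicit false

/-!
Monotone fibrations: convex bodies in `ℝ^k × V` which lie in `{x ≥ 0}` and contain with `(x, y)` all
`(x', y)` with `0 ≤ x' ≤ x`.
-/

namespace Pool.Agent.R753.Mono

open Filter Topology

variable {k : ℕ} {V : Type} [NormedAddCommGroup V] [NormedSpace ℝ V]

/-- an interior point of `K` over `y'`, if `y'` is in the interior of the section `{y : (0, y) ∈ K}` -/
lemma exists_up {K : Set ((Fin k → ℝ) × V)} (hK : Convex ℝ K) (hKi : (interior K).Nonempty)
    (hpos : ∀ p ∈ K, ∀ i, 0 ≤ p.1 i) {y' : V} (hy' : y' ∈ interior {y | ((0 : Fin k → ℝ), y) ∈ K}) :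
    ∃ a : Fin k → ℝ, (∀ i, 0 < a i) ∧ (a, y') ∈ interior K := by
  obtain ⟨⟨a, b⟩, hab⟩ := hKi
  -- the coordinates of `a` are positive
  have ha : ∀ i, 0 < a i := by
    intro i
    by_contra hcon
    push Not at hcon
    have hcont : Continuous fun t : ℝ => ((fun j => if j = i then a j - t else a j, b) :
        (Fin k → ℝ) × V) := by
      refine Continuous.prodMk (continuous_pi fun j => ?_) continuous_const
      by_cases hj : j = i
      · simp only [if_pos hj]
        fun_prop
      · simp only [if_neg hj]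
        fun_prop
    have h0 : ((fun j => if j = i then a j - 0 else a j, b) : (Fin k → ℝ) × V) ∈ interior K := by
      have : (fun j => if j = i then a j - 0 else a j) = a := by
        funext j
        split_ifs <;> simp
      rw [this]
      exact hab
    have hev := hcont.continuousAt.eventually (isOpen_interior.mem_nhds h0)
    have hev2 := (hev.filter_mono (nhdsWithin_le_nhds (s := Set.Ioi (0 : ℝ)))).and
      self_mem_nhdsWithin
    obtain ⟨t, ht, ht0⟩ := hev2.exists
    have h1 := hpos _ (interior_subset ht) i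
    simp only [if_true] at h1
    have h2 : (0 : ℝ) < t := ht0
    linarith
  -- `y'` is a combination of `b` and a point of the section
  have hcont : Continuous fun s : ℝ => y' + s • (y' - b) := by fun_prop
  have h0 : y' + (0 : ℝ) • (y' - b) ∈ interior {y | ((0 : Fin k → ℝ), y) ∈ K} := by
    simpa using hy'
  have hev := hcont.continuousAt.eventually (isOpen_interior.mem_nhds h0)
  obtain ⟨s, hs, hs0⟩ := ((hev.filter_mono (nhdsWithin_le_nhds (s := Set.Ioi (0 : ℝ)))).and
    self_mem_nhdsWithin).exists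
  have hs0' : (0 : ℝ) < s := hs0
  set y'' : V := y' + s • (y' - b) with hy''
  have hy''K : ((0 : Fin k → ℝ), y'') ∈ K := by
    have h := interior_subset (s := {y | ((0 : Fin k → ℝ), y) ∈ K}) hs
    exact h
  have h1s : (0 : ℝ) < 1 + s := by linarith
  have hcomb : (s / (1 + s)) • ((a, b) : (Fin k → ℝ) × V) +
      (1 / (1 + s)) • ((0 : Fin k → ℝ), y'') ∈ interior K :=
    hK.combo_interior_self_mem_interior hab hy''K (by positivity) (by positivity)
      (by field_simp; ring)
  refine ⟨(s / (1 + s)) • a, fun i => ?_, ?_⟩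
  · simp only [Pi.smul_apply, smul_eq_mul]
    have := ha i
    positivity
  · have e : (s / (1 + s)) • ((a, b) : (Fin k → ℝ) × V) + (1 / (1 + s)) • ((0 : Fin k → ℝ), y'') =
        ((s / (1 + s)) • a, y') := by
      rw [Prod.smul_mk, Prod.smul_mk, Prod.mk_add_mk, smul_zero, add_zero, hy'']
      congr 1
      have h2 : (1 / (1 + s)) • (y' + s • (y' - b)) = y' - (s / (1 + s)) • b := by
        rw [smul_add, smul_smul, smul_sub]
        have e1 : 1 / (1 + s) * s = s / (1 + s) := by ring
        rw [e1]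
        have e2 : y' = (1 / (1 + s)) • y' + (s / (1 + s)) • y' := by
          rw [← add_smul]
          have : 1 / (1 + s) + s / (1 + s) = 1 := by field_simp
          rw [this, one_smul]
        nth_rewrite 3 [e2]
        abel
      rw [h2]
      abel
    rw [← e]
    exact hcomb

omit [NormedSpace ℝ V] in
/-- points below an interior point, with positive coordinates, are interior points -/
lemma down {K : Set ((Fin k → ℝ) × V)}
    (hmono : ∀ p ∈ K, ∀ x' : Fin k → ℝ, (∀ i, 0 ≤ x' i) → (∀ i, x' i ≤ p.1 i) → (x', p.2) ∈ K)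
    {a x : Fin k → ℝ} {y : V} (ha : (a, y) ∈ interior K) (hx0 : ∀ i, 0 < x i)
    (hxa : ∀ i, x i ≤ a i) : (x, y) ∈ interior K := by
  -- move the neighbourhood of `(a, y)`
  set f : (Fin k → ℝ) × V → (Fin k → ℝ) × V := fun p => (p.1 + (a - x), p.2) with hf
  have hfc : Continuous f := by fun_prop
  have hopen : IsOpen (f ⁻¹' interior K ∩ {p | ∀ i, 0 < p.1 i}) := by
    refine (isOpen_interior.preimage hfc).inter ?_
    have : {p : (Fin k → ℝ) × V | ∀ i, 0 < p.1 i} = ⋂ i, {p | 0 < p.1 i} := by
      ext p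
      simp
    rw [this]
    exact isOpen_iInter_of_finite fun i => isOpen_lt continuous_const (by fun_prop)
  refine mem_interior.2 ⟨_, ?_, hopen, ?_, ?_⟩
  · rintro ⟨p, q⟩ ⟨hp1, hp2⟩
    have h1 : (p + (a - x), q) ∈ K := interior_subset hp1
    refine hmono _ h1 p (fun i => (hp2 i).le) fun i => ?_
    simp only [Pi.add_apply, Pi.sub_apply]
    have := hxa i
    linarith
  · show (x + (a - x), y) ∈ interior K
    rw [add_sub_cancel]
    exact ha
  · exact hx0

/-- **Monotone fibrations.** -/
theorem fib {K : Set ((Fin k → ℝ) × V)} (hK : Convex ℝ K) (hKc : IsCompact K)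
    (hKi : (interior K).Nonempty) (hpos : ∀ p ∈ K, ∀ i, 0 ≤ p.1 i)
    (hmono : ∀ p ∈ K, ∀ x' : Fin k → ℝ, (∀ i, 0 ≤ x' i) → (∀ i, x' i ≤ p.1 i) → (x', p.2) ∈ K)
    {N : ℕ} (hcov : ∃ T : Finset V, T.card ≤ N ∧
      {y | ((0 : Fin k → ℝ), y) ∈ K} ⊆ ⋃ t ∈ T, (fun y => t + y) ''
        interior {y | ((0 : Fin k → ℝ), y) ∈ K}) :
    ∃ T : Finset ((Fin k → ℝ) × V), T.card ≤ 2 ^ k * N ∧
      K ⊆ ⋃ t ∈ T, (fun x => t + x) '' interior K := by
  classical
  obtain ⟨T, hT, hcov⟩ := hcov
  set K₀ : Set V := {y | ((0 : Fin k → ℝ), y) ∈ K} with hK₀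
  have hK₀c : IsCompact K₀ := by
    have hcl : IsClosed K₀ := hKc.isClosed.preimage (by fun_prop : Continuous fun y : V =>
      ((0 : Fin k → ℝ), y))
    have himg : IsCompact (Prod.snd '' K) := hKc.image continuous_snd
    refine himg.of_isClosed_subset hcl ?_
    intro y hy
    exact ⟨(0, y), hy, rfl⟩
  -- bound
  obtain ⟨R, hR0, hR⟩ : ∃ R : ℝ, 0 < R ∧ ∀ p ∈ K, ∀ i, p.1 i ≤ R := by
    obtain ⟨R, hR⟩ := (hKc.image continuous_fst).isBounded.exists_norm_le
    refine ⟨max R 1, lt_max_of_lt_right one_pos, ?_⟩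
    intro p hp i
    have h1 := hR _ (Set.mem_image_of_mem _ hp)
    exact ((le_abs_self _).trans ((norm_le_pi_norm p.1 i).trans h1)).trans (le_max_left _ _)
  -- the uniform gain
  set U : ℕ → Set V := fun m => {y | ∃ t ∈ T, ((fun _ => 1 / ((m : ℝ) + 1) : Fin k → ℝ), y - t) ∈
    interior K} with hU
  have hUo : ∀ m, IsOpen (U m) := by
    intro m
    have : U m = ⋃ t ∈ T, (fun y : V => ((fun _ => 1 / ((m : ℝ) + 1) : Fin k → ℝ), y - t)) ⁻¹'
        interior K := by
      ext y
      simp [hU]
    rw [this]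
    refine isOpen_biUnion fun t _ => isOpen_interior.preimage ?_
    fun_prop
  have hUm : Monotone U := by
    intro m m' hmm y hy
    obtain ⟨t, ht, hy⟩ := hy
    refine ⟨t, ht, down hmono hy (fun i => by positivity) fun i => ?_⟩
    have h1 : (m : ℝ) ≤ m' := by exact_mod_cast hmm
    exact one_div_le_one_div_of_le (by positivity) (by linarith)
  have hUc : K₀ ⊆ ⋃ m, U m := by
    intro y hy
    have h := hcov hy
    simp only [Set.mem_iUnion] at h
    obtain ⟨t, ht, y', hy', hyt⟩ := h
    obtain ⟨a, ha0, ha⟩ := exists_up hK hKi hpos hy'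
    obtain ⟨m, hm⟩ : ∃ m : ℕ, ∀ i, 1 / ((m : ℝ) + 1) ≤ a i := by
      choose f hf using fun i => exists_nat_one_div_lt (ha0 i)
      refine ⟨Finset.univ.sup f, fun i => ?_⟩
      have h1 : (f i : ℝ) ≤ Finset.univ.sup f := by
        exact_mod_cast Finset.le_sup (Finset.mem_univ i)
      exact (one_div_le_one_div_of_le (by positivity) (by linarith)).trans (hf i).le
    refine Set.mem_iUnion.2 ⟨m, t, ht, ?_⟩
    have e : y - t = y' := by rw [← hyt]; simp
    rw [e]
    exact down hmono ha (fun i => by positivity) hm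
  obtain ⟨m, hm⟩ := hK₀c.elim_directed_cover U hUo hUc hUm.directed_le
  set ρ : ℝ := 1 / ((m : ℝ) + 1) with hρ
  have hρ0 : 0 < ρ := by positivity
  set η : ℝ := ρ / 2 with hη
  have hη0 : 0 < η := by positivity
  -- step length
  set ε : ℝ := min (1 / 2) (η / (4 * R)) with hε
  have hε0 : 0 < ε := lt_min (by norm_num) (by positivity)
  have hε1 : ε ≤ 1 / 2 := min_le_left _ _
  have hε2 : ε * (4 * R) ≤ η := by
    have := min_le_right (1 / 2) (η / (4 * R))
    rwa [← hε, le_div_iff₀ (by positivity)] at this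
  refine ⟨(Finset.univ ×ˢ T).image fun (st : (Fin k → Bool) × V) =>
    ((fun i => if st.1 i then ε * (2 * R) else -(ε * (ρ / 4)) : Fin k → ℝ), ε • st.2), ?_, ?_⟩
  · refine Finset.card_image_le.trans ?_
    rw [Finset.card_product, Finset.card_univ, Fintype.card_fun, Fintype.card_bool,
      Fintype.card_fin]
    exact Nat.mul_le_mul_left _ hT
  · rintro ⟨x, y⟩ hxy
    have hx0 : ∀ i, 0 ≤ x i := hpos _ hxy
    have hxR : ∀ i, x i ≤ R := hR _ hxy
    have hy0 : y ∈ K₀ := hmono _ hxy 0 (fun i => le_rfl) hx0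
    obtain ⟨t, ht, htK⟩ := hm hy0
    set s : Fin k → Bool := fun i => decide (η ≤ x i) with hs
    have hcomb : (1 - ε) • ((x, y) : (Fin k → ℝ) × V) + ε • ((fun _ => ρ : Fin k → ℝ), y - t) ∈
        interior K :=
      hK.combo_self_interior_mem_interior hxy htK (by linarith) hε0 (by ring)
    have e : (1 - ε) • ((x, y) : (Fin k → ℝ) × V) + ε • ((fun _ => ρ : Fin k → ℝ), y - t) =
        ((fun i => (1 - ε) * x i + ε * ρ : Fin k → ℝ), y - ε • t) := by
      rw [Prod.smul_mk, Prod.smul_mk, Prod.mk_add_mk]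
      refine Prod.ext ?_ ?_
      · funext i
        simp
      · show (1 - ε) • y + ε • (y - t) = y - ε • t
        rw [smul_sub, sub_smul, one_smul]
        abel
    rw [e] at hcomb
    refine Set.mem_iUnion₂.2 ⟨((fun i => if s i then ε * (2 * R) else -(ε * (ρ / 4)) : Fin k → ℝ),
      ε • t), ?_, ((fun i => x i - if s i then ε * (2 * R) else -(ε * (ρ / 4)) : Fin k → ℝ),
      y - ε • t), ?_, ?_⟩
    · exact Finset.mem_image.2 ⟨(s, t), Finset.mem_product.2 ⟨Finset.mem_univ _, ht⟩, rfl⟩
    · refine down hmono hcomb ?_ ?_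
      · intro i
        by_cases hi : η ≤ x i
        · have : s i = true := by simp [hs, hi]
          rw [if_pos this]
          nlinarith
        · have : ¬ s i = true := by simp [hs, hi]
          rw [if_neg this]
          have h1 := hx0 i
          have h2 : 0 < ε * (ρ / 4) := by positivity
          linarith
      · intro i
        have hxi := hx0 i
        by_cases hi : η ≤ x i
        · have : s i = true := by simp [hs, hi]
          rw [if_pos this]
          have h1 := mul_le_mul_of_nonneg_left (hxR i) hε0.le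
          have h2 : 0 < ε * ρ := by positivity
          have h3 : 0 < ε * R := by positivity
          nlinarith
        · have : ¬ s i = true := by simp [hs, hi]
          rw [if_neg this]
          push Not at hi
          have h1 := mul_le_mul_of_nonneg_left hi.le hε0.le
          have h2 : 0 < ε * ρ := by positivity
          have h3 : ε * η = ε * ρ / 2 := by rw [hη]; ring
          nlinarith
    · show ((fun i => if s i then ε * (2 * R) else -(ε * (ρ / 4)) : Fin k → ℝ), ε • t) +
        ((fun i => x i - if s i then ε * (2 * R) else -(ε * (ρ / 4)) : Fin k → ℝ), y - ε • t) =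
          (x, y)
      rw [Prod.mk_add_mk]
      refine Prod.ext ?_ ?_
      · funext i
        simp
      · simp

end Pool.Agent.R753.Mono
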