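import Pool.Agent.Results.MP_2d87f2_co.Blowup

set_option autoImplicit false

/-!
# Net graphs: comparison of the two forms of the Cheeger constant
-/

open Finset

namespace Pool.Agent.R753.NetC

open Pool.Agent.Results.MP_2d87f2_co.Blowup

lemma ncard_edgeBoundary {V : Type} (G : SimpleGraph V) (A : Finset V) :
    (edgeBoundary G A).ncard = {p : V × V | p.1 ∈ A ∧ p.2 ∉ A ∧ G.Adj p.1 p.2}.ncard := by
  have h : edgeBoundary G A =
      (fun p : V × V => s(p.1, p.2)) '' {p : V × V | p.1 ∈ A ∧ p.2 ∉ A ∧ G.Adj p.1 p.2} := by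
    ext e
    constructor
    · rintro ⟨he, u, hu, v, hv, rfl⟩
      exact ⟨(u, v), ⟨hu, hv, he⟩, rfl⟩
    · rintro ⟨⟨u, v⟩, ⟨hu, hv, ha⟩, rfl⟩
      exact ⟨ha, u, hu, v, hv, rfl⟩
  rw [h, Set.ncard_image_of_injOn]
  rintro ⟨a, b⟩ ⟨h1, h2, _⟩ ⟨c, d⟩ ⟨h3, h4, _⟩ h5
  simp only at h1 h2 h3 h4 h5
  rw [Sym2.eq_iff] at h5
  rcases h5 with ⟨rfl, rfl⟩ | ⟨rfl, rfl⟩
  · rfl
  · exact absurd h3 h2

lemma cheeger_eq {V : Type} (G : SimpleGraph V) :
    cheeger G = sInf {r : ℝ | ∃ A : Finset V, A.Nonempty ∧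
      r = (Set.ncard {p : V × V | p.1 ∈ A ∧ p.2 ∉ A ∧ G.Adj p.1 p.2} : ℝ) / (A.card : ℝ)} := by
  unfold cheeger
  simp only [ncard_edgeBoundary]

lemma cheeger_net_eq {V : Type} (G : SimpleGraph V) (k : ℕ) (S : Set V) :
    cheeger (netGraph G k S) = sInf {r : ℝ | ∃ A : Finset V, A.Nonempty ∧ (↑A : Set V) ⊆ S ∧
      r = (Set.ncard {p : V × V | p.1 ∈ A ∧ p.2 ∈ S ∧ p.2 ∉ A ∧ G.dist p.1 p.2 ≤ 2 * k} : ℝ)
        / (A.card : ℝ)} := by
  classical
  rw [cheeger_eq]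
  congr 1
  ext r
  constructor
  · rintro ⟨A, hA, rfl⟩
    refine ⟨A.map ⟨Subtype.val, Subtype.val_injective⟩, hA.map, ?_, ?_⟩
    · intro x hx
      simp only [coe_map, Function.Embedding.coeFn_mk, Set.mem_image] at hx
      obtain ⟨y, _, rfl⟩ := hx
      exact y.2
    · rw [Finset.card_map]
      congr 2
      have h : {p : V × V | p.1 ∈ A.map ⟨Subtype.val, Subtype.val_injective⟩ ∧ p.2 ∈ S ∧
          p.2 ∉ A.map ⟨Subtype.val, Subtype.val_injective⟩ ∧ G.dist p.1 p.2 ≤ 2 * k} =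
          (fun p : S × S => ((p.1 : V), (p.2 : V))) ''
            {p : S × S | p.1 ∈ A ∧ p.2 ∉ A ∧ (netGraph G k S).Adj p.1 p.2} := by
        ext ⟨a, b⟩
        simp only [Set.mem_setOf_eq, Finset.mem_map, Function.Embedding.coeFn_mk, Set.mem_image,
          Prod.mk.injEq, Prod.exists]
        constructor
        · rintro ⟨⟨x, hx, rfl⟩, hb, h1, h2⟩
          have hb' : (⟨b, hb⟩ : S) ∉ A := fun h => h1 ⟨⟨b, hb⟩, h, rfl⟩
          refine ⟨x, ⟨b, hb⟩, ⟨hx, hb', ?_, h2⟩, rfl, rfl⟩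
          rintro rfl
          exact hb' hx
        · rintro ⟨x, y, ⟨hx, hy, h1, h2⟩, rfl, rfl⟩
          refine ⟨⟨x, hx, rfl⟩, y.2, ?_, h2⟩
          rintro ⟨z, hz, h3⟩
          exact hy (Subtype.ext h3 ▸ hz)
      rw [h, Set.ncard_image_of_injective]
      rintro ⟨a, b⟩ ⟨c, d⟩ h
      simp only [Prod.mk.injEq] at h
      exact Prod.ext (Subtype.ext h.1) (Subtype.ext h.2)
  · rintro ⟨A, hA, hS, rfl⟩
    refine ⟨A.subtype (· ∈ S), ?_, ?_⟩
    · obtain ⟨x, hx⟩ := hA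
      exact ⟨⟨x, hS hx⟩, by simpa using hx⟩
    · have hc : (A.subtype (· ∈ S)).card = A.card := by
        rw [Finset.card_subtype, Finset.filter_true_of_mem]
        exact fun x hx => hS hx
      rw [hc]
      congr 2
      have h : {p : V × V | p.1 ∈ A ∧ p.2 ∈ S ∧ p.2 ∉ A ∧ G.dist p.1 p.2 ≤ 2 * k} =
          (fun p : S × S => ((p.1 : V), (p.2 : V))) ''
            {p : S × S | p.1 ∈ A.subtype (· ∈ S) ∧ p.2 ∉ A.subtype (· ∈ S) ∧
              (netGraph G k S).Adj p.1 p.2} := by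
        ext ⟨a, b⟩
        simp only [Set.mem_setOf_eq, Finset.mem_subtype, Set.mem_image,
          Prod.mk.injEq, Prod.exists]
        constructor
        · rintro ⟨h0, hb, h1, h2⟩
          refine ⟨⟨a, hS h0⟩, ⟨b, hb⟩, ⟨h0, h1, ?_, h2⟩, rfl, rfl⟩
          intro h
          rw [Subtype.mk.injEq] at h
          exact h1 (h ▸ h0)
        · rintro ⟨x, y, ⟨hx, hy, h1, h2⟩, rfl, rfl⟩
          exact ⟨hx, y.2, hy, h2⟩
      rw [h, Set.ncard_image_of_injective]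
      rintro ⟨a, b⟩ ⟨c, d⟩ h
      simp only [Prod.mk.injEq] at h
      exact Prod.ext (Subtype.ext h.1) (Subtype.ext h.2)

lemma net_cover {V : Type} (G : SimpleGraph V) (k : ℕ) (hk : 1 ≤ k) (S : Set V)
    (hS : IsNet G k S) (w : V) (hw : w ∉ S) : ∃ u ∈ S, G.dist w u < k := by
  by_contra hcon
  push Not at hcon
  have h1 : Separated G k (insert w S) := by
    intro u hu v hv huv
    rcases hu with rfl | hu <;> rcases hv with rfl | hv
    · exact absurd rfl huv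
    · exact hcon v hv
    · rw [SimpleGraph.dist_comm]; exact hcon u hu
    · exact hS.prop u hu v hv huv
  have h2 := hS.le_of_ge h1 (Set.subset_insert w S)
  exact hw (h2 (Set.mem_insert w S))

theorem main : ∃ (V : Type) (G : SimpleGraph V), Infinite V ∧ G.Connected ∧
      (∀ v : V, (G.neighborSet v).Finite) ∧
      (∀ u v : V, ∃ φ : G ≃g G, φ u = v) ∧
      ∃ S : Set V,
        (∀ u ∈ S, ∀ v ∈ S, u ≠ v → 2 ≤ G.dist u v) ∧
        (∀ w : V, w ∉ S → ∃ u ∈ S, G.dist w u < 2) ∧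
        sInf {r : ℝ | ∃ A : Finset V, A.Nonempty ∧ (↑A : Set V) ⊆ S ∧
            r = (Set.ncard {p : V × V | p.1 ∈ A ∧ p.2 ∈ S ∧ p.2 ∉ A ∧
                  G.dist p.1 p.2 ≤ 2 * 2} : ℝ)
              / (A.card : ℝ)} <
        sInf {r : ℝ | ∃ A : Finset V, A.Nonempty ∧
            r = (Set.ncard {p : V × V | p.1 ∈ A ∧ p.2 ∉ A ∧ G.Adj p.1 p.2} : ℝ)
              / (A.card : ℝ)} := by
  obtain ⟨V, G, h1, h2, h3, h4, ⟨S, hS⟩, h6⟩ := result 2 le_rfl 1 one_pos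
  refine ⟨V, G, h1, h2, h3, h4, S, hS.prop, net_cover G 2 (by norm_num) S hS, ?_⟩
  rw [← cheeger_net_eq, ← cheeger_eq]
  simpa using h6 S hS

end Pool.Agent.R753.NetC
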