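import Pool.Agent.Results.MP_2c1b2b_gt.LinearSegments

set_option autoImplicit false

/-!
# Approximation of zonoids by sums of few segments, in the form of the frozen statement
-/

open Set Filter
open scoped Pointwise Topology

namespace Pool.Agent.R753.Zon

open Pool.Agent.Results.MP_2c1b2b_gt.LinearSegments

variable {n : ℕ}

lemma mem_seg {v x : E n} : x ∈ segment ℝ (-v) v ↔ ∃ t ∈ Icc (-1 : ℝ) 1, x = t • v := by
  constructor
  · rintro ⟨a, b, ha, hb, hab, rfl⟩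
    refine ⟨b - a, ⟨by linarith, by linarith⟩, ?_⟩
    rw [sub_smul, smul_neg]
    abel
  · rintro ⟨t, ⟨h1, h2⟩, rfl⟩
    refine ⟨(1 - t) / 2, (1 + t) / 2, by linarith, by linarith, by ring, ?_⟩
    rw [smul_neg, ← neg_smul, ← add_smul]
    congr 1
    ring

lemma sum_seg {m : ℕ} (v : Fin m → E n) : ∑ i, segment ℝ (-v i) (v i) = segSum v := by
  ext x
  rw [Set.mem_finsetSum]
  constructor
  · rintro ⟨g, hg, rfl⟩
    have h1 : ∀ i, ∃ t ∈ Icc (-1 : ℝ) 1, g i = t • v i := fun i => mem_seg.1 (hg (Finset.mem_univ i))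
    choose t ht htg using h1
    exact ⟨t, ht, Finset.sum_congr rfl fun i _ => htg i⟩
  · rintro ⟨t, ht, rfl⟩
    exact ⟨fun i => t i • v i, fun {i} _ => mem_seg.2 ⟨t i, ht i, rfl⟩, rfl⟩

lemma segSum_convex {m : ℕ} (v : Fin m → E n) : Convex ℝ (segSum v) := by
  rintro _ ⟨s, hs, rfl⟩ _ ⟨t, ht, rfl⟩ a b ha hb hab
  refine ⟨fun i => a * s i + b * t i, fun i => ?_, ?_⟩
  · have := convex_Icc (-1 : ℝ) 1 (hs i) (ht i) ha hb hab
    simpa using this
  · rw [Finset.smul_sum, Finset.smul_sum, ← Finset.sum_add_distrib]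
    refine Finset.sum_congr rfl fun i _ => ?_
    rw [smul_smul, smul_smul, ← add_smul]

lemma segSum_neg {m : ℕ} (v : Fin m → E n) {x : E n} (hx : x ∈ segSum v) : -x ∈ segSum v := by
  obtain ⟨t, ht, rfl⟩ := hx
  refine ⟨fun i => -t i, fun i => ⟨by linarith [(ht i).2], by linarith [(ht i).1]⟩, ?_⟩
  rw [← Finset.sum_neg_distrib]
  refine Finset.sum_congr rfl fun i _ => ?_
  rw [neg_smul]

lemma segSum_compact {m : ℕ} (v : Fin m → E n) : IsCompact (segSum v) := by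
  have h : segSum v = (fun t : Fin m → ℝ => ∑ j, t j • v j) '' Icc (-1) 1 := by
    ext x
    constructor
    · rintro ⟨t, ht, rfl⟩
      exact ⟨t, ⟨fun i => (ht i).1, fun i => (ht i).2⟩, rfl⟩
    · rintro ⟨t, ht, rfl⟩
      exact ⟨t, fun i => ⟨ht.1 i, ht.2 i⟩, rfl⟩
  rw [h]
  exact isCompact_Icc.image (by fun_prop)

lemma segSum_zero {m : ℕ} (v : Fin m → E n) : (0 : E n) ∈ segSum v :=
  ⟨fun _ => 0, fun _ => ⟨by norm_num, by norm_num⟩, by simp⟩

lemma segSum_smul {m : ℕ} (v : Fin m → E n) (c : ℝ) : segSum (fun i => c • v i) = c • segSum v := by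
  ext x
  constructor
  · rintro ⟨t, ht, rfl⟩
    refine ⟨∑ i, t i • v i, ⟨t, ht, rfl⟩, ?_⟩
    simp only
    rw [Finset.smul_sum]
    refine Finset.sum_congr rfl fun i _ => ?_
    rw [smul_comm]
  · rintro ⟨_, ⟨t, ht, rfl⟩, rfl⟩
    refine ⟨t, ht, ?_⟩
    simp only
    rw [Finset.smul_sum]
    refine Finset.sum_congr rfl fun i _ => ?_
    rw [smul_comm]

/-- limits of zonotopes are zonoids -/
lemma isZonoid {K : Set (E n)} (hc : IsCompact K) (hi : (interior K).Nonempty)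
    (h : ∀ δ : ℝ, 0 < δ → ∃ m : ℕ, ∃ v : Fin m → E n,
      Metric.hausdorffDist K (∑ i, segment ℝ (-v i) (v i)) < δ) : IsZonoid K := by
  have hne : K.Nonempty := hi.mono interior_subset
  have happ : ∀ δ : ℝ, 0 < δ → ∃ m : ℕ, ∃ v : Fin m → E n,
      (∀ x ∈ K, ∃ y ∈ segSum v, dist x y < δ) ∧ (∀ y ∈ segSum v, ∃ x ∈ K, dist x y < δ) := by
    intro δ hδ
    obtain ⟨m, v, hv⟩ := h δ hδ
    rw [sum_seg] at hv
    have hfin : Metric.hausdorffEDist K (segSum v) ≠ ⊤ :=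
      Metric.hausdorffEDist_ne_top_of_nonempty_of_bounded hne ⟨0, segSum_zero v⟩
        hc.isBounded (segSum_compact v).isBounded
    refine ⟨m, v, fun x hx => ?_, fun y hy => ?_⟩
    · exact Metric.exists_dist_lt_of_hausdorffDist_lt hx hv hfin
    · obtain ⟨x, hx, hxy⟩ := Metric.exists_dist_lt_of_hausdorffDist_lt' hy hv hfin
      exact ⟨x, hx, hxy⟩
  have hcl : closure K = K := hc.isClosed.closure_eq
  refine ⟨?_, hc, hi, ?_, ?_⟩
  · intro x hx y hy a b ha hb hab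
    rw [← hcl, Metric.mem_closure_iff]
    intro ε hε
    obtain ⟨m, v, h1, h2⟩ := happ (ε / 2) (by linarith)
    obtain ⟨x', hx', hxx⟩ := h1 x hx
    obtain ⟨y', hy', hyy⟩ := h1 y hy
    obtain ⟨z, hz, hzz⟩ := h2 _ (segSum_convex v hx' hy' ha hb hab)
    refine ⟨z, hz, ?_⟩
    have h3 : dist (a • x + b • y) (a • x' + b • y') ≤ ε / 2 := by
      rw [dist_eq_norm]
      have e : a • x + b • y - (a • x' + b • y') = a • (x - x') + b • (y - y') := by
        rw [smul_sub, smul_sub]; abel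
      rw [e]
      calc ‖a • (x - x') + b • (y - y')‖ ≤ ‖a • (x - x')‖ + ‖b • (y - y')‖ := norm_add_le _ _
        _ = a * dist x x' + b * dist y y' := by
          rw [norm_smul, norm_smul, Real.norm_of_nonneg ha, Real.norm_of_nonneg hb, dist_eq_norm,
            dist_eq_norm]
        _ ≤ a * (ε / 2) + b * (ε / 2) := by gcongr
        _ = ε / 2 := by rw [← add_mul, hab, one_mul]
    rw [dist_comm] at hzz
    calc dist (a • x + b • y) z ≤ dist (a • x + b • y) (a • x' + b • y') +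
          dist (a • x' + b • y') z := dist_triangle _ _ _
      _ < ε / 2 + ε / 2 := add_lt_add_of_le_of_lt h3 hzz
      _ = ε := by ring
  · intro x hx
    rw [← hcl, Metric.mem_closure_iff]
    intro ε hε
    obtain ⟨m, v, h1, h2⟩ := happ (ε / 2) (by linarith)
    obtain ⟨x', hx', hxx⟩ := h1 x hx
    obtain ⟨z, hz, hzz⟩ := h2 _ (segSum_neg v hx')
    refine ⟨z, hz, ?_⟩
    rw [dist_comm] at hzz
    have h3 : dist (-x) (-x') < ε / 2 := by rwa [dist_neg_neg]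
    calc dist (-x) z ≤ dist (-x) (-x') + dist (-x') z := dist_triangle _ _ _
      _ < ε / 2 + ε / 2 := add_lt_add h3 hzz
      _ = ε := by ring
  · intro δ hδ
    obtain ⟨m, v, hv⟩ := h δ hδ
    rw [sum_seg] at hv
    refine ⟨m, segSum v, ⟨0, v, ?_⟩, hv⟩
    ext x
    simp

theorem main :
    ¬ (∃ ε : ℝ, 0 < ε ∧ ∀ C : ℝ, ∃ n : ℕ, ∃ K : Set (EuclideanSpace ℝ (Fin n)),
      IsCompact K ∧ (interior K).Nonempty ∧
      (∀ δ : ℝ, 0 < δ → ∃ m : ℕ, ∃ v : Fin m → EuclideanSpace ℝ (Fin n),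
          Metric.hausdorffDist K (∑ i, segment ℝ (-v i) (v i)) < δ) ∧
      ¬ ∃ m : ℕ, (m : ℝ) ≤ C * n ∧
          ∃ v : Fin m → EuclideanSpace ℝ (Fin n),
          ∃ T : EuclideanSpace ℝ (Fin n) ≃ₗ[ℝ] EuclideanSpace ℝ (Fin n),
            T '' K ⊆ ∑ i, segment ℝ (-v i) (v i) ∧
            ∑ i, segment ℝ (-v i) (v i) ⊆ (1 + ε) • (T '' K)) := by
  rintro ⟨ε, hε, h⟩
  obtain ⟨C, hC, hres⟩ := result
  set ε' : ℝ := min ε (1 / 2) with hε'
  have h0 : 0 < ε' := by positivity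
  have h1 : ε' < 1 := lt_of_le_of_lt (min_le_right _ _) (by norm_num)
  have h2 : ε' ≤ ε := min_le_left _ _
  obtain ⟨n, K, hc, hi, hz, hno⟩ := h (C / ε' ^ 2)
  have hZ := isZonoid hc hi hz
  obtain ⟨-, M, v, hM, hv1, hv2⟩ := hres n K hZ ε' h0 h1
  apply hno
  have h3 : LinearEquiv.refl ℝ (EuclideanSpace ℝ (Fin n)) '' K = K := by
    ext x
    constructor
    · rintro ⟨y, hy, rfl⟩
      exact hy
    · intro hx
      exact ⟨x, hx, rfl⟩
  refine ⟨M, hM, fun i => (1 + ε') • v i, LinearEquiv.refl ℝ _, ?_, ?_⟩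
  · rw [sum_seg, segSum_smul, h3]
    exact hv2
  · rw [sum_seg, segSum_smul, h3]
    rintro _ ⟨x, hx, rfl⟩
    have h4 : (0 : EuclideanSpace ℝ (Fin n)) ∈ K := hv1 (segSum_zero v)
    refine ⟨((1 + ε') / (1 + ε)) • x, ?_, ?_⟩
    · exact hZ.1.smul_mem_of_zero_mem h4 (hv1 hx) ⟨by positivity, by
        rw [div_le_one (by positivity)]
        linarith⟩
    · simp only
      rw [smul_smul, mul_div_cancel₀ _ (by positivity)]

end Pool.Agent.R753.Zon
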